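import Pool.Agent.Helper82.RP.Small

/-!
# All replacements

`rep_all`: a graph of index at least two, connected up to vertices of degree two, which satisfies
the packing condition and has fewer vertices than a minimal counterexample, has a TOK4.
-/

set_option autoImplicit false

namespace Pool.Agent.Helper82.RP

open SimpleGraph Pool.Agent.Helper57.TOK Pool.Agent.Helper57.TD Pool.Agent.Helper82.TK
open Pool.Agent.Helper57.TOP

variable {V : Type*}

section

variable {G : SimpleGraph V} {U : Set V}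

/-- Without dense sets we are in the class. -/
lemma ex3_of_no_dense (hp : Pre2 G U) (hi : Ind2 G)
    (hd : 2 * (U.ncard : ℤ) ≤ (G.edgeSet.ncard : ℤ) + 2)
    (hno : ∀ Y κ, ¬ Dense3 G U Y κ) : Ex3 G (One V) U where
  edge_mem := hp.edge_mem
  deg2 := hp.deg2
  conn := hp.conn
  dens := by rw [odG_one]; exact_mod_cast hd
  index2 := by
    intro w κ hκ
    refine hi w κ ?_
    intro a b ha hb hab
    exact add_eq_one_iff.1 (hκ a b (fun h => ha h) (fun h => hb h) hab).symm
  sparse := by
    intro Y hY h2 h3 hr κ hκ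
    rw [odG_one]
    by_contra hlt
    push Not at hlt
    exact hno Y κ ⟨hY, h2, h3, hr, balOn_one.1 hκ, hlt⟩

/-- A balanced set which contains a given set, has at most three neighbours and is inclusion-maximal
with these properties. -/
lemma exists_max [Finite V] {Y : Set V} {κ : V → ZMod 2} (hY : Y ⊆ U) (hb : PB G κ Y)
    (h3 : (Nb G Y).ncard ≤ 3) :
    ∃ (M : Set V) (κ' : V → ZMod 2), Y ⊆ M ∧ M ⊆ U ∧ PB G κ' M ∧ (Nb G M).ncard ≤ 3 ∧
      ∀ X, M ⊆ X → X ⊆ U → X ≠ M → ∀ κ'', PB G κ'' X → 4 ≤ (Nb G X).ncard := by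
  classical
  have hex : ∃ n, ∃ (M : Set V) (κ' : V → ZMod 2), Y ⊆ M ∧ M ⊆ U ∧ PB G κ' M ∧
      (Nb G M).ncard ≤ 3 ∧ U.ncard - M.ncard = n :=
    ⟨_, Y, κ, subset_rfl, hY, hb, h3, rfl⟩
  obtain ⟨M, κ', h1, h2, h4, h5, h6⟩ := Nat.find_spec hex
  refine ⟨M, κ', h1, h2, h4, h5, ?_⟩
  intro X hMX hXU hne κ'' hκ''
  by_contra hlt
  push Not at hlt
  have h7 : Nat.find hex ≤ U.ncard - X.ncard :=
    Nat.find_min' hex ⟨X, κ'', h1.trans hMX, hXU, hκ'', by omega, rfl⟩
  have h8 : M.ncard < X.ncard :=
    Set.ncard_lt_ncard (lt_of_le_of_ne hMX (Ne.symm hne)) (Set.toFinite _)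
  have h9 : X.ncard ≤ U.ncard := Set.ncard_le_ncard hXU (Set.toFinite _)
  omega

/-- The counting hypothesis. -/
lemma rb_cnt [Finite V] (hp : Pre2 G U) (hk : PackR G U) {M : Set V} {κ : V → ZMod 2}
    (hMU : M ⊆ U) (hb : PB G κ M) (h2 : 2 ≤ M.ncard) (h3 : (Nb G M).ncard = 3)
    (hMr : ∀ v ∈ Nb G M, 3 ≤ (G.neighborSet v).ncard)
    (hr : (U \ (M ∪ Nb G M)).Nonempty) {R : Set V} (hRU : R ⊆ U) (hRM : Disjoint R M)
    (hRN : Disjoint R (Nb G M)) (hRb : ∃ κ', PB G κ' R) (hR3 : (Nb G R).ncard ≤ 3)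
    (hRr : ∀ v ∈ Nb G R, 3 ≤ (G.neighborSet v).ncard) :
    fden G M + fden G R ≤ (G.edgeSet.ncard : ℤ) - 2 * (U.ncard : ℤ) + 4 := by
  classical
  obtain ⟨κ', hκ'⟩ := hRb
  set s : ℤ := (G.edgeSet.ncard : ℤ) - 2 * (U.ncard : ℤ) + 2 with hs
  have hs0 : 0 ≤ s := by have := hk.dens; omega
  have hbM : beta κ (Nb G M) ≤ 1 := by have := beta_le κ (Nb G M); omega
  have hRM' := Set.disjoint_left.1 hRM
  have hRN' := Set.disjoint_left.1 hRN
  have hMR : M ⊆ U \ (R ∪ Nb G R) := by
    intro x hx
    refine ⟨hMU hx, ?_⟩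
    rintro (h | ⟨-, y, hy, hyx⟩)
    · exact hRM' h hx
    · exact not_adj_M hx (hRM' hy) (hRN' hy) hyx.symm
  have hMne : M.Nonempty := (Set.ncard_pos (Set.toFinite _)).1 (by omega)
  -- small `R`
  by_cases hRd : DenseR G U R κ'
  · have hbR : beta κ' (Nb G R) ≤ 1 := by have := beta_le κ' (Nb G R); omega
    by_cases hMd : beta κ (Nb G M) < fden G M
    · have h1 := hk [(M, κ), (R, κ')] (by
        intro t ht
        simp only [List.mem_cons, List.not_mem_nil, or_false] at ht
        rcases ht with rfl | rfl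
        · exact ⟨⟨hMU, h2, h3, hr, hb, hMd⟩, hMr⟩
        · exact hRd) (by
        simp only [List.pairwise_cons, List.mem_cons, List.not_mem_nil, or_false,
          forall_eq, List.Pairwise.nil, and_true, IsEmpty.forall_iff, implies_true]
        exact (NT.symm ⟨hRM, hRN⟩))
      simp only [List.map_cons, List.map_nil, List.sum_cons, List.sum_nil] at h1
      unfold exc at h1
      linarith
    · push Not at hMd
      have h1 := hk.exc_le hRd
      unfold exc at h1
      linarith
  · have hRf : fden G R ≤ 1 := by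
      by_cases hR2 : 2 ≤ R.ncard
      · have h4 : 3 ≤ (Nb G R).ncard := by
          by_contra hlt
          push Not at hlt
          have h5 := hp.conn R hRU hR2 (by omega)
          have h6 := Set.ncard_le_ncard hMR (Set.toFinite _)
          omega
        have hbR : beta κ' (Nb G R) ≤ 1 := by have := beta_le κ' (Nb G R); omega
        by_contra hlt
        push Not at hlt
        exact hRd ⟨⟨hRU, hR2, by omega, hMne.mono hMR, hκ', by linarith⟩, hRr⟩
      · by_cases hR0 : R.ncard = 0
        · rw [(Set.ncard_eq_zero (Set.toFinite _)).1 hR0]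
          simp
        · obtain ⟨y, rfl⟩ := Set.ncard_eq_one.1 (by omega : R.ncard = 1)
          have h5 : fden G {y} = fden G ∅ + ((G.neighborSet y \ ∅).ncard : ℤ) - 2 := by
            rw [← fden_insert G (Set.notMem_empty y)]
            simp
          rw [Nb_singleton] at hR3
          rw [h5, Set.sdiff_empty]
          simp
          omega
    by_cases hMd : beta κ (Nb G M) < fden G M
    · have h1 := hk.exc_le ⟨⟨hMU, h2, h3, hr, hb, hMd⟩, hMr⟩
      unfold exc at h1
      linarith
    · push Not at hMd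
      linarith

/-- Excess-minimal sets have boundary vertices of degree at least three. -/
lemma EMin.denseR [Finite V] (hp : Pre2 G U) (hi : Ind2 G) {Y : Set V} {κ : V → ZMod 2}
    (hm : EMin G U Y κ) : DenseR G U Y κ := by
  classical
  refine ⟨hm.1, ?_⟩
  intro s hs
  by_contra hlt
  push Not at hlt
  have h2 := hm.two_nbrs hp hs
  have hsub : G.neighborSet s ⊆ Y := by
    have h3 : G.neighborSet s ∩ Y = G.neighborSet s :=
      Set.eq_of_subset_of_ncard_le Set.inter_subset_left (by omega) (Set.toFinite _)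
    rw [← h3]
    exact Set.inter_subset_right
  have hXU : insert s Y ⊆ U := by
    rintro y (rfl | hy)
    · exact hp.Nb_sub Y hs
    · exact hm.1.sub hy
  have hXb : PB G κ (insert s Y) := by
    intro a b ha hab
    rcases ha with ha | ha
    · rw [ha] at hab
      rw [ha]
      exact (hm.1.bal b s (hsub hab) hab.symm).symm
    · exact hm.1.bal a b ha hab
  have h4 := three_le_of_ind2 hp hi hXU hXb
    (hm.1.two.trans (Set.ncard_le_ncard (Set.subset_insert s Y) (Set.toFinite _)))
  have h5 : Nb G (insert s Y) ⊆ Nb G Y \ {s} := by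
    rintro v ⟨hv, y, hy, hyv⟩
    have hvs : v ≠ s := fun h => hv (Or.inl h)
    have hvY : v ∉ Y := fun h => hv (Or.inr h)
    rcases hy with hy | hy
    · rw [hy] at hyv
      exact absurd (hsub hyv) hvY
    · exact ⟨⟨hvY, y, hy, hyv⟩, hvs⟩
  have h6 := Set.ncard_le_ncard h5 (Set.toFinite _)
  have h7 := Set.ncard_sdiff_singleton_add_one hs (Set.toFinite _)
  have h8 := hm.1.three
  omega

/-- The packing condition is inherited. -/
lemma pack_of_away [Finite V] (hp : Pre2 G U) (hi : Ind2 G) {M : Set V} {κ : V → ZMod 2}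
    {H : SimpleGraph V} {U' : Set V}
    (hk : PackR G U) (ha : Away G U M H U')
    (hM : beta κ (Nb G M) < fden G M → DenseR G U M κ)
    (hw : (G.edgeSet.ncard : ℤ) - 2 * (U.ncard : ℤ) - max 0 (fden G M - beta κ (Nb G M)) ≤
        (H.edgeSet.ncard : ℤ) - 2 * (U'.ncard : ℤ)) : Pack H U' := by
  classical
  intro L hL hLp
  -- the corresponding list
  have key : ∀ L : List (Set V × (V → ZMod 2)), (∀ s ∈ L, Dense3 H U' s.1 s.2) →
      L.Pairwise (fun s t => NT H s.1 t.1) →
      ∃ L' : List (Set V × (V → ZMod 2)), (∀ s ∈ L', DenseR G U s.1 s.2 ∧ NT G s.1 M ∧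
        (∀ x ∈ s.1, ∀ y, H.Adj x y ↔ G.Adj x y) ∧ ∃ t ∈ L, s.1 ⊆ t.1) ∧
      L'.Pairwise (fun s t => NT G s.1 t.1) ∧
      (L.map (fun s => exc H s.1 s.2)).sum ≤ (L'.map (fun s => exc G s.1 s.2)).sum := by
    intro L
    induction L with
    | nil => intro _ _; exact ⟨[], by simp, List.Pairwise.nil, by simp⟩
    | cons s L ih =>
      intro hL hLp
      rw [List.pairwise_cons] at hLp
      obtain ⟨L', h1, h2, h3⟩ := ih (fun t ht => hL t (List.mem_cons_of_mem _ ht)) hLp.2
      obtain ⟨X0, h4, h5, h6, h7, h8, h9, h10⟩ := ha s.1 s.2 (hL s List.mem_cons_self)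
      refine ⟨(X0, s.2) :: L', ?_, ?_, ?_⟩
      · intro t ht
        rw [List.mem_cons] at ht
        rcases ht with rfl | ht
        · exact ⟨h5.denseR hp hi, ⟨h6, h7⟩, h9, s, List.mem_cons_self, h4⟩
        · obtain ⟨g1, g2, g3, t', ht', g4⟩ := h1 t ht
          exact ⟨g1, g2, g3, t', List.mem_cons_of_mem _ ht', g4⟩
      · rw [List.pairwise_cons]
        refine ⟨?_, h2⟩
        intro t ht
        obtain ⟨g1, g2, g3, t', ht', g4⟩ := h1 t ht
        have g5 : NT H X0 t.1 := (hLp.1 t' ht').mono h4 g4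
        refine ⟨g5.1, ?_⟩
        rw [Set.disjoint_left]
        rintro x hx ⟨hxt, y, hy, hyx⟩
        exact (Set.disjoint_left.1 g5.2) hx ⟨hxt, y, hy, (g3 y hy x).2 hyx⟩
      · simp only [List.map_cons, List.sum_cons]
        have : exc H s.1 s.2 ≤ exc G X0 s.2 := h10
        linarith
  obtain ⟨L', h1, h2, h3⟩ := key L hL hLp
  by_cases hMd : beta κ (Nb G M) < fden G M
  · have h4 := hk ((M, κ) :: L') (by
      intro t ht
      rw [List.mem_cons] at ht
      rcases ht with rfl | ht
      · exact hM hMd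
      · exact (h1 t ht).1) (by
      rw [List.pairwise_cons]
      exact ⟨fun t ht => (h1 t ht).2.1.symm, h2⟩)
    simp only [List.map_cons, List.sum_cons] at h4
    rw [max_eq_right (by linarith)] at hw
    have h5 : exc G M κ = fden G M - beta κ (Nb G M) := rfl
    linarith
  · push Not at hMd
    have h4 := hk L' (fun t ht => (h1 t ht).1) h2
    rw [max_eq_left (by linarith)] at hw
    linarith

/-- A dense set has two vertices of degree at least three. -/
lemma Dense3.real [Finite V] {Y : Set V} {κ : V → ZMod 2} (hd : Dense3 G U Y κ) :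
    ∃ r1 ∈ Y, ∃ r2 ∈ Y, r1 ≠ r2 ∧ 3 ≤ (G.neighborSet r1).ncard ∧
      3 ≤ (G.neighborSet r2).ncard := by
  classical
  have h1 : 2 ≤ {y | y ∈ Y ∧ 3 ≤ (G.neighborSet y).ncard}.ncard := by
    by_contra hlt
    push Not at hlt
    have := beta_of_real_le_one hd.bal (by omega) hd.three.ge
    have := hd.dense
    omega
  obtain ⟨a, b, ha, hb, hab⟩ := (Set.one_lt_ncard_iff (Set.toFinite _)).1 h1
  exact ⟨a, ha.1, b, hb.1, hab, ha.2, hb.2⟩

/-- **All replacements.** -/
theorem rep_allR [Finite V] {G : SimpleGraph V} {U : Set V} (hM : GMin G U)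
    {G' : SimpleGraph V} {U' : Set V} (hU' : U'.ncard < U.ncard) (hp : Pre2 G' U')
    (hi : Ind2 G') (hk : PackR G' U') : HasTOK4s G' (One V) := by
  classical
  have key : ∀ n, ∀ (G' : SimpleGraph V) (U' : Set V), U'.ncard = n → U'.ncard < U.ncard →
      Pre2 G' U' → Ind2 G' → PackR G' U' → HasTOK4s G' (One V) := by
    intro n
    induction n using Nat.strong_induction_on with
    | _ n ih =>
      intro G' U' hn hlt hp hi hk
      by_cases hno : ∀ Y κ, ¬ Dense3 G' U' Y κ
      · exact hM.IH G' U' (ex3_of_no_dense hp hi hk.dens hno) (Or.inl hlt)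
      · push Not at hno
        obtain ⟨Y, κ0, hd⟩ := hno
        obtain ⟨M, κ, hYM, hMU, hb, h3, hmax⟩ := exists_max hd.sub hd.bal hd.three.le
        have hM2 : 2 ≤ M.ncard := hd.two.trans (Set.ncard_le_ncard hYM (Set.toFinite _))
        have h3' : (Nb G' M).ncard = 3 := by
          have := three_le_of_ind2 hp hi hMU hb hM2
          omega
        obtain ⟨r1, hr1, r2, hr2, hne, hd1, hd2⟩ := Dense3.real hd
        by_cases hr : (U' \ (M ∪ Nb G' M)).ncard ≤ 1
        · exact small_tok hp hi hMU hb h3' hr ⟨r1, hYM hr1, hd1⟩ (by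
            have := hk.dens; omega)
        · have hrne : (U' \ (M ∪ Nb G' M)).Nonempty :=
            (Set.ncard_pos (Set.toFinite _)).1 (by omega)
          have hMr : ∀ v ∈ Nb G' M, 3 ≤ (G'.neighborSet v).ncard := by
            intro v hv
            have g1 := out2_of_max hp hMU hb hM2 h3' (by omega) hmax hv
            obtain ⟨-, z, hz, hzv⟩ := hv
            have g3 : insert z (G'.neighborSet v \ M) ⊆ G'.neighborSet v := by
              rintro y (rfl | hy)
              · exact hzv.symm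
              · exact hy.1
            have g4 := Set.ncard_le_ncard g3 (Set.toFinite _)
            rw [Set.ncard_insert_of_notMem (fun hh => hh.2 hz) (Set.toFinite _)] at g4
            omega
          have hRB : RB G' U' M κ :=
            ⟨hp, hi, hMU, hb, hM2, h3', by omega, hmax,
              fun R h1 h2 h4 h5 h6 h7 => rb_cnt hp hk hMU hb hM2 h3' hMr hrne h1 h2 h4 h5 h6 h7⟩
          obtain ⟨H, U'', g1, g2, g3, g4, g5, g6⟩ :=
            rep_step hRB (hYM hr1) (hYM hr2) hne hd1 hd2
          apply g5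
          refine ih U''.ncard (by omega) H U'' rfl (by omega) g1 g2 (Pack.packR ?_)
          exact pack_of_away (κ := κ) hp hi hk g6
            (fun h => ⟨⟨hMU, hM2, h3', hrne, hb, h⟩, hMr⟩) g4
  exact key _ G' U' rfl hU' hp hi hk

/-- **All replacements**, all dense sets packed. -/
theorem rep_all [Finite V] {G : SimpleGraph V} {U : Set V} (hM : GMin G U)
    {G' : SimpleGraph V} {U' : Set V} (hU' : U'.ncard < U.ncard) (hp : Pre2 G' U')
    (hi : Ind2 G') (hk : Pack G' U') : HasTOK4s G' (One V) :=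
  rep_allR hM hU' hp hi hk.packR

end

end Pool.Agent.Helper82.RP
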