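import Pool.Agent.Helper82.RP.Step

/-!
# The packing condition for dense sets
-/

set_option autoImplicit false

namespace Pool.Agent.Helper82.RP

open SimpleGraph Pool.Agent.Helper57.TOK Pool.Agent.Helper57.TD Pool.Agent.Helper82.TK

variable {V : Type*}

/-- `X` and `Y` are disjoint and there is no edge between them. -/
def NT (G : SimpleGraph V) (X Y : Set V) : Prop :=
  Disjoint X Y ∧ Disjoint X (Nb G Y)

/-- The excess of a set. -/
noncomputable def exc (G : SimpleGraph V) (Y : Set V) (κ : V → ZMod 2) : ℤ :=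
  fden G Y - beta κ (Nb G Y)

/-- The packing condition: the total excess of a family of pairwise non touching dense balanced
sets with three neighbours is at most the slack `e − 2 |U| + 2`. The empty family is the density
condition. -/
def Pack (G : SimpleGraph V) (U : Set V) : Prop :=
  ∀ L : List (Set V × (V → ZMod 2)), (∀ s ∈ L, Dense3 G U s.1 s.2) →
    L.Pairwise (fun s t => NT G s.1 t.1) →
    (L.map (fun s => exc G s.1 s.2)).sum ≤ (G.edgeSet.ncard : ℤ) - 2 * (U.ncard : ℤ) + 2

/-- A dense set all of whose boundary vertices have degree at least three. -/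
def DenseR (G : SimpleGraph V) (U Y : Set V) (κ : V → ZMod 2) : Prop :=
  Dense3 G U Y κ ∧ ∀ n ∈ Nb G Y, 3 ≤ (G.neighborSet n).ncard

/-- The packing condition for dense sets with boundary vertices of degree at least three. -/
def PackR (G : SimpleGraph V) (U : Set V) : Prop :=
  ∀ L : List (Set V × (V → ZMod 2)), (∀ s ∈ L, DenseR G U s.1 s.2) →
    L.Pairwise (fun s t => NT G s.1 t.1) →
    (L.map (fun s => exc G s.1 s.2)).sum ≤ (G.edgeSet.ncard : ℤ) - 2 * (U.ncard : ℤ) + 2

lemma Pack.packR {G : SimpleGraph V} {U : Set V} (h : Pack G U) : PackR G U :=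
  fun L hL hp => h L (fun s hs => (hL s hs).1) hp

lemma NT.symm {G : SimpleGraph V} {X Y : Set V} (h : NT G X Y) : NT G Y X := by
  refine ⟨h.1.symm, ?_⟩
  rw [Set.disjoint_left]
  rintro y hy ⟨hyX, x, hx, hxy⟩
  exact (Set.disjoint_left.1 h.2) hx ⟨(Set.disjoint_left.1 h.1) hx, y, hy, hxy.symm⟩

lemma NT.mono {G : SimpleGraph V} {X Y X' Y' : Set V} (h : NT G X Y) (h1 : X' ⊆ X)
    (h2 : Y' ⊆ Y) : NT G X' Y' := by
  refine ⟨h.1.mono h1 h2, ?_⟩
  rw [Set.disjoint_left]
  rintro x hx ⟨hxY, y, hy, hyx⟩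
  by_cases h3 : x ∈ Y
  · exact (Set.disjoint_left.1 h.1) (h1 hx) h3
  · exact (Set.disjoint_left.1 h.2) (h1 hx) ⟨h3, y, h2 hy, hyx⟩

lemma Pack.dens {G : SimpleGraph V} {U : Set V} (h : Pack G U) :
    2 * (U.ncard : ℤ) ≤ (G.edgeSet.ncard : ℤ) + 2 := by
  have := h [] (by simp) List.Pairwise.nil
  simp only [List.map_nil, List.sum_nil] at this
  linarith

lemma Pack.exc_le {G : SimpleGraph V} {U Y : Set V} {κ : V → ZMod 2} (h : Pack G U)
    (hd : Dense3 G U Y κ) :
    exc G Y κ ≤ (G.edgeSet.ncard : ℤ) - 2 * (U.ncard : ℤ) + 2 := by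
  have := h [(Y, κ)] (by simpa using hd) (List.pairwise_singleton _ _)
  simpa using this

lemma PackR.dens {G : SimpleGraph V} {U : Set V} (h : PackR G U) :
    2 * (U.ncard : ℤ) ≤ (G.edgeSet.ncard : ℤ) + 2 := by
  have := h [] (by simp) List.Pairwise.nil
  simp only [List.map_nil, List.sum_nil] at this
  linarith

lemma PackR.exc_le {G : SimpleGraph V} {U Y : Set V} {κ : V → ZMod 2} (h : PackR G U)
    (hd : DenseR G U Y κ) :
    exc G Y κ ≤ (G.edgeSet.ncard : ℤ) - 2 * (U.ncard : ℤ) + 2 := by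
  have := h [(Y, κ)] (by simpa using hd) (List.pairwise_singleton _ _)
  simpa using this

end Pool.Agent.Helper82.RP
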