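import Pool.Agent.Helper82.RP.Base

/-!
# The replacement step: counting for the enlarged set
-/

set_option autoImplicit false

namespace Pool.Agent.Helper82.RP

open SimpleGraph Pool.Agent.Helper57.TOK Pool.Agent.Helper57.TD Pool.Agent.Helper82.TK

variable {V : Type*}

section

variable {G : SimpleGraph V} {U M : Set V} {κ : V → ZMod 2} {u : V} {n m x hh : Fin 3 → V}
  {B : Finset (Fin 3)}

lemma RD.count_sub [Finite V] (h : RD G U M κ n m x B) (S : Finset (Fin 3)) (hS : S ⊆ B) :
    (FB M n m S).ncard = M.ncard + 2 * S.card ∧ fden G (FB M n m S) ≤ fden G M - S.card := by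
  classical
  induction S using Finset.induction_on with
  | empty =>
    have : FB M n m ∅ = M := by
      ext y
      constructor
      · rintro (h1 | ⟨i, hi, -⟩)
        · exact h1
        · exact absurd hi (Finset.notMem_empty i)
      · exact Or.inl
    rw [this]
    simp
  | @insert i S hi ih =>
    have hS' : S ⊆ B := (Finset.subset_insert i S).trans hS
    have hiB : i ∈ B := hS (Finset.mem_insert_self i S)
    obtain ⟨ih1, ih2⟩ := ih hS'
    have hbad := h.bad i hiB
    have heq : FB M n m (insert i S) = insert (m i) (insert (n i) (FB M n m S)) := by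
      ext y
      constructor
      · rintro (h1 | ⟨j, hj, h1⟩)
        · exact Or.inr (Or.inr (Or.inl h1))
        · rcases Finset.mem_insert.1 hj with rfl | hj
          · rcases h1 with h1 | h1
            · exact Or.inr (Or.inl h1)
            · exact Or.inl h1
          · exact Or.inr (Or.inr (Or.inr ⟨j, hj, h1⟩))
      · rintro (h1 | h1 | h1 | ⟨j, hj, h1⟩)
        · exact Or.inr ⟨i, Finset.mem_insert_self i S, Or.inr h1⟩
        · exact Or.inr ⟨i, Finset.mem_insert_self i S, Or.inl h1⟩
        · exact Or.inl h1
        · exact Or.inr ⟨j, Finset.mem_insert_of_mem hj, h1⟩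
    have hn : n i ∉ FB M n m S := by
      rintro (h1 | ⟨j, hj, h1 | h1⟩)
      · exact h.nM i h1
      · exact hi (h.ninj h1 ▸ hj)
      · exact h.m_ne_n (hS' hj) i h1.symm
    have hm : m i ∉ insert (n i) (FB M n m S) := by
      rintro (h1 | h1 | ⟨j, hj, h1 | h1⟩)
      · exact h.m_ne_n hiB i h1
      · exact hbad.mM h1
      · exact h.m_ne_n hiB j h1
      · exact hi (h.m_inj hiB (hS' hj) h1 ▸ hj)
    have c1 : (G.neighborSet (n i) \ FB M n m S).ncard ≤ 2 := by
      have h1 : G.neighborSet (n i) \ FB M n m S ⊆ {m i, x i} := by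
        rw [← hbad.out]
        rintro y ⟨hy, hy'⟩
        exact ⟨hy, fun h2 => hy' (Or.inl h2)⟩
      exact (Set.ncard_le_ncard h1 (Set.toFinite _)).trans (ncard_pair_le' _ _)
    have c2 : (G.neighborSet (m i) \ insert (n i) (FB M n m S)).ncard ≤ 1 := by
      apply ncard_le_one_of' (a := x i)
      rintro y ⟨hy, hy'⟩
      rcases hbad.nbm' hy with h1 | h1
      · exact absurd (Or.inl h1) hy'
      · exact h1
    rw [heq, fden_insert G hm, fden_insert G hn,
      Set.ncard_insert_of_notMem hm (Set.toFinite _),
      Set.ncard_insert_of_notMem hn (Set.toFinite _), Finset.card_insert_of_notMem hi]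
    refine ⟨by omega, ?_⟩
    push_cast
    omega

lemma RD.card_F [Finite V] (h : RD G U M κ n m x B) :
    (FB M n m B).ncard = M.ncard + 2 * B.card := (h.count_sub B (Finset.Subset.refl B)).1

lemma RD.fden_F [Finite V] (h : RD G U M κ n m x B) :
    fden G (FB M n m B) ≤ fden G M - B.card := (h.count_sub B (Finset.Subset.refl B)).2


end

end Pool.Agent.Helper82.RP
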