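import Pool.Agent.Helper82.RP.Index
import Pool.Agent.Helper82.TK.StarDens

/-!
# The replacement step: density and size
-/

set_option autoImplicit false

namespace Pool.Agent.Helper82.RP

open SimpleGraph Pool.Agent.Helper57.TOK Pool.Agent.Helper57.TD Pool.Agent.Helper82.TK

variable {V : Type*}

section

variable {G : SimpleGraph V} {U M : Set V} {κ : V → ZMod 2} {u : V} {n m x hh : Fin 3 → V}
  {B : Finset (Fin 3)}

/-- Choice of the centre. -/
theorem exists_centre [Finite V] (hb : PB G κ M) (h3 : (Nb G M).ncard = 3)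
    (hr : ∃ r ∈ M, 3 ≤ (G.neighborSet r).ncard) :
    ∃ u ∈ M, 3 ≤ (G.neighborSet u).ncard ∧
      fden G M ≤ 1 - ({z | z ∈ Nb G M ∧ κ z = κ u}.ncard : ℤ) +
        max 0 (fden G M - beta κ (Nb G M)) ∧
      ((∀ r ∈ M, 3 ≤ (G.neighborSet r).ncard → κ r = κ u) ∨
        {z | z ∈ Nb G M ∧ κ z = κ u}.ncard ≤ 1) := by
  classical
  obtain ⟨c, hc⟩ := exists_majority κ h3
  have hbeta := beta_of_majority h3 hc
  have key2 : ∀ a b c : ZMod 2, a ≠ c → (b = a ↔ b ≠ c) := by decide
  by_cases hcase : ∃ u ∈ M, 3 ≤ (G.neighborSet u).ncard ∧ κ u ≠ c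
  · obtain ⟨u, hu, hdeg, huc⟩ := hcase
    have hset : {z | z ∈ Nb G M ∧ κ z = κ u} = {z | z ∈ Nb G M ∧ κ z ≠ c} := by
      ext z
      simp only [Set.mem_ofPred_eq]
      rw [key2 (κ u) (κ z) c huc]
    refine ⟨u, hu, hdeg, ?_, Or.inr (by rw [hset]; exact hc)⟩
    rw [hset, ← hbeta]
    have := le_max_right (0 : ℤ) (fden G M - beta κ (Nb G M))
    linarith
  · push Not at hcase
    obtain ⟨u, hu, hdeg⟩ := hr
    have huc := hcase u hu hdeg
    refine ⟨u, hu, hdeg, ?_, Or.inl (fun r hr hrd => (hcase r hr hrd).trans huc.symm)⟩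
    rw [huc]
    have hmax := le_max_left (0 : ℤ) (fden G M - beta κ (Nb G M))
    have hsplit : {z | z ∈ Nb G M ∧ κ z = c}.ncard + {z | z ∈ Nb G M ∧ κ z ≠ c}.ncard = 3 := by
      rw [← h3, ← Set.ncard_union_eq _ (Set.toFinite _) (Set.toFinite _)]
      · congr 1
        ext z
        simp only [Set.mem_union, Set.mem_ofPred_eq]
        constructor
        · rintro (h1 | h1)
          · exact h1.1
          · exact h1.1
        · intro h1
          by_cases hz : κ z = c
          · exact Or.inl ⟨h1, hz⟩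
          · exact Or.inr ⟨h1, hz⟩
      · rw [Set.disjoint_left]
        rintro z ⟨-, h4⟩ ⟨-, h5⟩
        exact h5 h4
    set k := {z | z ∈ Nb G M ∧ κ z ≠ c}.ncard with hk
    set B' := {x | x ∈ M ∧ κ x ≠ c} with hB'
    set A := {x | x ∈ M ∧ κ x = c} with hA
    have hBA : B' ∪ A = M := by
      ext x
      simp only [hA, hB', Set.mem_union, Set.mem_ofPred_eq]
      constructor
      · rintro (h1 | h1)
        · exact h1.1
        · exact h1.1
      · intro h1
        by_cases hx : κ x = c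
        · exact Or.inr ⟨h1, hx⟩
        · exact Or.inl ⟨h1, hx⟩
    have hfB : fO G κ B' ≤ 0 := by
      have h1 := fO_union_le (Z := G) (κ := κ) (B := ∅) (A := B') (m := 2) ?_
        (Set.disjoint_empty _)
      · rw [Set.empty_union] at h1
        have h2 : fO G κ ∅ = 0 := by unfold fO; exact fden_empty _
        rw [h2] at h1
        linarith
      · intro a ha Y _ _
        have h2 : (G.neighborSet a).ncard ≤ 2 := by
          by_contra hlt
          push Not at hlt
          exact ha.2 (hcase a ha.1 (by omega))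
        have h4 : {w | G.Adj a w ∧ κ a + κ w = 1 ∧ w ∉ Y} ⊆ G.neighborSet a := fun w hw => hw.1
        have h5 := Set.ncard_le_ncard h4 (Set.toFinite _)
        exact_mod_cast h5.trans h2
    have hfW : fO G κ M ≤ 0 + ((k : ℤ) - 2) * (A.ncard : ℤ) := by
      rw [← hBA]
      refine (fO_union_le (B := B') (A := A) (m := (k : ℤ)) ?_ ?_).trans (by linarith)
      · intro a ha Y hY _
        have h4 : {w | G.Adj a w ∧ κ a + κ w = 1 ∧ w ∉ Y} ⊆ {z | z ∈ Nb G M ∧ κ z ≠ c} := by
          rintro w ⟨h5, h6, h7⟩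
          have hwc : κ w ≠ c := by
            intro hh
            apply add_eq_one_iff.1 h6
            rw [ha.2, hh]
          refine ⟨⟨fun hwW => h7 (hY ⟨hwW, hwc⟩), a, ha.1, h5⟩, hwc⟩
        exact_mod_cast Set.ncard_le_ncard h4 (Set.toFinite _)
      · rw [Set.disjoint_left]
        rintro x ⟨-, h4⟩ ⟨-, h5⟩
        exact h5 h4
    have hApos : 1 ≤ (A.ncard : ℤ) := by
      have : 0 < A.ncard := (Set.ncard_pos (Set.toFinite _)).2 ⟨u, hu, huc⟩
      exact_mod_cast this
    have hk1 : (k : ℤ) ≤ 1 := by exact_mod_cast hc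
    have hs' : ({z | z ∈ Nb G M ∧ κ z = c}.ncard : ℤ) + (k : ℤ) = 3 := by exact_mod_cast hsplit
    have hfM : fden G M ≤ (k : ℤ) - 2 := by
      rw [hb.fden]
      nlinarith
    linarith

lemma RD.card_same [Finite V] (h : RD G U M κ n m x B) (u : V) :
    {z | z ∈ Nb G M ∧ κ z = κ u}.ncard = (Finset.univ.filter (fun i => κ (n i) = κ u)).card := by
  classical
  have h1 : {z | z ∈ Nb G M ∧ κ z = κ u} =
      n '' (Finset.univ.filter (fun i => κ (n i) = κ u) : Finset (Fin 3)) := by
    ext z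
    constructor
    · rintro ⟨h1, h2⟩
      obtain ⟨i, rfl⟩ := h.exists_n h1
      exact ⟨i, by simpa using h2, rfl⟩
    · rintro ⟨i, hi, rfl⟩
      exact ⟨h.nN i, by simpa using hi⟩
  rw [h1, Set.ncard_image_of_injective _ h.ninj, Set.ncard_coe_finset]


/-- Density with excess. -/
lemma RD.fden_le [Finite V] (h : RD G U M κ n m x B) {ε : ℤ}
    (hf : fden G M ≤ 1 - ({z | z ∈ Nb G M ∧ κ z = κ u}.ncard : ℤ) + ε) :
    fden G (FB M n m B) ≤ ((OB κ n u B).card : ℤ) - 2 + ε := by
  classical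
  have h1 := h.fden_F
  rw [h.card_same u] at hf
  have h2 := card_OB_EB (κ := κ) (n := n) (u := u) (B := B)
  have h3 := card_EB (κ := κ) (n := n) (u := u) (B := B)
  have h4 : (Finset.univ.filter (fun i => i ∉ B ∧ κ (n i) = κ u)).card ≤
      (Finset.univ.filter (fun i => κ (n i) = κ u)).card := by
    apply Finset.card_le_card
    intro i hi
    rw [Finset.mem_filter] at hi ⊢
    exact ⟨hi.1, hi.2.2⟩
  omega

/-- The weight of the star graph. -/
lemma weight_star [Finite V] {F : Set V} {t h : Fin 3 → V} {O E : Finset (Fin 3)}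
    (hs : StarPos G U F u t h O E) {ε : ℤ} (hf : fden G F ≤ (O.card : ℤ) - 2 + ε) :
    (G.edgeSet.ncard : ℤ) - 2 * (U.ncard : ℤ) - ε ≤
      ((starL G F u t h O E).edgeSet.ncard : ℤ) - 2 * ((starLU U F u h E).ncard : ℤ) := by
  have h1 := hs.card_U
  have h2 := hs.card_E
  unfold fden at hf
  omega

/-- The new graph has fewer vertices. -/
theorem RD.card_lt [Finite V] (h : RD G U M κ n m x B) (hu : u ∈ M)
    (hrule : (∀ r ∈ M, 3 ≤ (G.neighborSet r).ncard → κ r = κ u) ∨
        {z | z ∈ Nb G M ∧ κ z = κ u}.ncard ≤ 1)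
    (hr : ∃ r ∈ M, r ≠ u ∧ 3 ≤ (G.neighborSet r).ncard)
    {P : ∀ i, G.Walk u (n i)} (hP : FanM G M u n P)
    (hs : StarPos G U (FB M n m B) u (tB n x B) hh (OB κ n u B) (EB κ n u B))
    (hhM : ∀ i ∈ EB κ n u B, i ∉ B → hh i ∈ M ∧ hh i ∈ (P i).support) :
    (starLU U (FB M n m B) u hh (EB κ n u B)).ncard < U.ncard := by
  classical
  have h1 := hs.card_U
  have h2 := h.card_F
  have h3 := card_EB (κ := κ) (n := n) (u := u) (B := B)
  set Eg := Finset.univ.filter (fun i => i ∉ B ∧ κ (n i) = κ u) with hEg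
  have hEgE : ∀ i ∈ Eg, i ∈ EB κ n u B ∧ i ∉ B := by
    intro i hi
    rw [hEg, Finset.mem_filter] at hi
    exact ⟨mem_EB.2 (Or.inr hi.2.2), hi.2.1⟩
  have hZ : (hh '' (Eg : Set (Fin 3))).ncard = Eg.card := by
    rw [Set.InjOn.ncard_image, Set.ncard_coe_finset]
    intro i hi j hj hij
    exact hs.hinj i (hEgE i hi).1 j (hEgE j hj).1 hij
  have huZ : u ∉ hh '' (Eg : Set (Fin 3)) := by
    rintro ⟨i, hi, h4⟩
    exact hs.hu i (hEgE i hi).1 h4
  have hsub : insert u (hh '' (Eg : Set (Fin 3))) ⊆ M := by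
    rintro y (rfl | ⟨i, hi, rfl⟩)
    · exact hu
    · exact (hhM i (hEgE i hi).1 (hEgE i hi).2).1
  have hc := Set.ncard_le_ncard hsub (Set.toFinite _)
  rw [Set.ncard_insert_of_notMem huZ (Set.toFinite _), hZ] at hc
  by_contra hcon
  push Not at hcon
  -- B is empty and M is small
  have hB0 : B.card = 0 := by omega
  have hMc : M.ncard = 1 + Eg.card := by omega
  have hMeq : insert u (hh '' (Eg : Set (Fin 3))) = M := by
    apply Set.eq_of_subset_of_ncard_le hsub _ (Set.toFinite _)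
    rw [Set.ncard_insert_of_notMem huZ (Set.toFinite _), hZ]
    omega
  rw [Finset.card_eq_zero] at hB0
  set Z := hh '' (Eg : Set (Fin 3)) with hZdef
  have hadj : ∀ i ∈ Eg, G.Adj u (hh i) := by
    intro i hi
    have hun : u ≠ n i := fun h4 => h.nM i (h4 ▸ hu)
    obtain ⟨z, hz, huz⟩ := exists_first (P i) hun
    have hzM : z ∈ M := by
      rcases hP.supp i z hz with h4 | h4
      · exfalso
        have h5 := h.bm.bal u z hu huz
        rw [h4] at h5
        rw [hEg, Finset.mem_filter] at hi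
        exact h5 hi.2.2.symm
      · exact h4
    rw [← hMeq] at hzM
    rcases hzM with h4 | ⟨l, hl, h4⟩
    · exact absurd h4 huz.ne'
    · by_cases hli : l = i
      · rw [← hli, h4]; exact huz
      · exfalso
        have h5 := (hhM l (hEgE l hl).1 (hEgE l hl).2).2
        rw [h4] at h5
        exact huz.ne' (hP.disj l i hli z h5 hz)
  have hcol : ∀ z ∈ Z, κ z ≠ κ u := by
    rintro z ⟨i, hi, rfl⟩
    exact (h.bm.bal u _ hu (hadj i hi)).symm
  have hZM : Z ⊆ M := (Set.subset_insert u Z).trans hsub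
  obtain ⟨r, hrM, hru, hrd⟩ := hr
  have hrZ : r ∈ Z := by
    rw [← hMeq] at hrM
    exact hrM.resolve_left hru
  -- the neighbours of `r`
  have hNr : G.neighborSet r ⊆ insert u {z | z ∈ Nb G M ∧ κ z = κ u} := by
    intro y hy
    have hry : G.Adj r y := hy
    have hcr := hcol r hrZ
    have h6 := h.bm.bal r y (hZM hrZ) hry
    have hyu : κ y = κ u := by
      revert hcr h6
      generalize κ r = p
      generalize κ y = q
      generalize κ u = s
      revert p q s; decide
    by_cases hyM : y ∈ M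
    · rw [← hMeq] at hyM
      rcases hyM with h7 | h7
      · exact Or.inl h7
      · exact absurd hyu (hcol y h7)
    · exact Or.inr ⟨⟨hyM, r, hZM hrZ, hry⟩, hyu⟩
  have h4 := Set.ncard_le_ncard hNr (Set.toFinite _)
  have h5 := Set.ncard_insert_le u {z | z ∈ Nb G M ∧ κ z = κ u}
  rcases hrule with h6 | h6
  · exact hcol r hrZ (h6 r hrM hrd)
  · omega

end

end Pool.Agent.Helper82.RP
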