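import Pool.Agent.Helper82.TK.BalDens
import Pool.Agent.Helper82.TK.BalSparse

/-!
# Excess-minimal dense balanced sets with three neighbours
-/

set_option autoImplicit false

namespace Pool.Agent.Helper82.RP

open SimpleGraph Pool.Agent.Helper57.TOK Pool.Agent.Helper57.TD Pool.Agent.Helper82.TK

variable {V : Type*}

/-- Excess-minimal dense sets: no proper subset is dense with at least the same excess. -/
def EMin (G : SimpleGraph V) (U Y : Set V) (κ : V → ZMod 2) : Prop :=
  Dense3 G U Y κ ∧ ∀ Y', Y' ⊆ Y → Dense3 G U Y' κ →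
    fden G Y - beta κ (Nb G Y) ≤ fden G Y' - beta κ (Nb G Y') → Y' = Y

lemma exists_eMin [Finite V] {G : SimpleGraph V} {U Y : Set V} {κ : V → ZMod 2}
    (h : Dense3 G U Y κ) : ∃ Y', Y' ⊆ Y ∧ EMin G U Y' κ ∧
      fden G Y - beta κ (Nb G Y) ≤ fden G Y' - beta κ (Nb G Y') := by
  classical
  have h1 : ∃ n, ∃ Y', Y' ⊆ Y ∧ Dense3 G U Y' κ ∧
      fden G Y - beta κ (Nb G Y) ≤ fden G Y' - beta κ (Nb G Y') ∧ Y'.ncard = n :=
    ⟨_, Y, subset_rfl, h, le_rfl, rfl⟩
  obtain ⟨Y', h2, h3, h3', h4⟩ := Nat.find_spec h1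
  refine ⟨Y', h2, ⟨h3, fun Y'' h5 h6 h7 => ?_⟩, h3'⟩
  apply Set.eq_of_subset_of_ncard_le h5 _ (Set.toFinite _)
  rw [h4]
  exact Nat.find_min' h1 ⟨Y'', h5.trans h2, h6, h3'.trans h7, rfl⟩

section

variable {G : SimpleGraph V} {U Y : Set V} {κ : V → ZMod 2}

/-- Every boundary vertex of a smallest dense set has at least two neighbours in it. -/
theorem EMin.two_nbrs [Finite V] (hp : Pre2 G U) (hm : EMin G U Y κ) {s : V}
    (hs : s ∈ Nb G Y) : 2 ≤ (G.neighborSet s ∩ Y).ncard := by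
  classical
  obtain ⟨hd, hmin⟩ := hm
  by_contra hlt
  push Not at hlt
  obtain ⟨hsY, y, hy, hys⟩ := hs
  -- the unique neighbour
  have huniq : ∀ x ∈ Y, G.Adj x s → x = y := by
    intro x hx hxs
    by_contra hne
    have h1 : ({x, y} : Set V) ⊆ G.neighborSet s ∩ Y := by
      rintro z (rfl | hz)
      · exact ⟨hxs.symm, hx⟩
      · rw [Set.mem_singleton_iff] at hz
        rw [hz]; exact ⟨hys.symm, hy⟩
    have h2 := Set.ncard_le_ncard h1 (Set.toFinite _)
    rw [Set.ncard_pair hne] at h2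
    omega
  have hsN : s ∈ Nb G Y := ⟨hsY, y, hy, hys⟩
  set R : Set V := Nb G Y \ {s} with hR
  have hR2 : R.ncard = 2 := by
    have h1 : R.ncard + 1 = (Nb G Y).ncard :=
      Set.ncard_sdiff_singleton_add_one hsN (Set.toFinite _)
    have h2 := hd.three
    omega
  have hsR : s ∉ R := fun hh => hh.2 rfl
  have hyR : y ∉ R := fun hh => hh.1.1 hy
  have hCR : Nb G Y = insert s R := by
    rw [hR, Set.insert_sdiff_singleton, Set.insert_eq_of_mem hsN]
  set Y0 : Set V := Y \ {y} with hY0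
  have hYn : Y = insert y Y0 := by
    rw [hY0, Set.insert_sdiff_singleton, Set.insert_eq_of_mem hy]
  have hc : Y0.ncard + 1 = Y.ncard := Set.ncard_sdiff_singleton_add_one hy (Set.toFinite _)
  have htwo := hd.two
  have hY0ne : Y0.Nonempty := by
    rw [← Set.ncard_pos (Set.toFinite _)]
    omega
  have hN0 : Nb G Y0 ⊆ insert y R := by
    rintro v ⟨hv, x, hx, hxv⟩
    by_cases hvy : v = y
    · exact Or.inl hvy
    · have hvY : v ∉ Y := fun hh => hv ⟨hh, hvy⟩
      right
      refine ⟨⟨hvY, x, hx.1, hxv⟩, ?_⟩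
      intro hvs
      rw [Set.mem_singleton_iff] at hvs
      exact hx.2 (huniq x hx.1 (hvs ▸ hxv))
  have hκ0 : PB G κ Y0 := hd.bal.mono Set.sdiff_subset
  have hsN0 : s ∉ Nb G Y0 := by
    intro hh
    rcases hN0 hh with h1 | h1
    · exact hsY (h1 ▸ hy)
    · exact hsR h1
  have hsrest : s ∈ U \ (Y0 ∪ Nb G Y0) :=
    ⟨hp.Nb_sub Y hsN, fun hh => hh.elim (fun h1 => hsY h1.1) hsN0⟩
  have hexc := hd.dense
  have hf0 : fden G Y0 - beta κ (Nb G Y0) < fden G Y - beta κ (Nb G Y) := by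
    by_cases h2 : 2 ≤ Y0.ncard
    · by_cases h3 : (Nb G Y0).ncard = 3
      · by_contra hlt2
        push Not at hlt2
        have h4 := hmin Y0 Set.sdiff_subset
          ⟨Set.sdiff_subset.trans hd.sub, h2, h3, ⟨s, hsrest⟩, hκ0, by linarith⟩ hlt2
        rw [h4] at hc
        omega
      · exfalso
        have h4 := Set.ncard_le_ncard hN0 (Set.toFinite _)
        have h5 := Set.ncard_insert_le y R
        have h6 := hp.conn Y0 (Set.sdiff_subset.trans hd.sub) h2 (by omega)
        obtain ⟨q, hqU, hq⟩ := hd.rest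
        have hqY : q ∉ Y := fun hh => hq (Or.inl hh)
        have hqN : q ∉ Nb G Y := fun hh => hq (Or.inr hh)
        have hqr : q ∈ U \ (Y0 ∪ Nb G Y0) := by
          refine ⟨hqU, ?_⟩
          rintro (h7 | h7)
          · exact hqY h7.1
          · rcases hN0 h7 with h8 | h8
            · exact hqY (h8 ▸ hy)
            · exact hqN h8.1
        have hne : q ≠ s := fun hh => hqN (hh ▸ hsN)
        have h7 : ({q, s} : Set V) ⊆ U \ (Y0 ∪ Nb G Y0) := by
          rintro z (rfl | hz)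
          · exact hqr
          · rw [Set.mem_singleton_iff] at hz; rw [hz]; exact hsrest
        have h8 := Set.ncard_le_ncard h7 (Set.toFinite _)
        rw [Set.ncard_pair hne] at h8
        omega
    · have hpos := (Set.ncard_pos (Set.toFinite _)).2 hY0ne
      obtain ⟨z, hz⟩ := Set.ncard_eq_one.1 (by omega : Y0.ncard = 1)
      have h5 : fden G Y0 ≤ beta κ (Nb G Y0) := by
        rw [hz]
        apply PB.single
        · rw [← hz]; exact hκ0
        · have hzU : z ∈ U := hd.sub (hz ▸ rfl : z ∈ Y0).1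
          have := hp.deg2 z hzU
          exact (Set.ncard_pos (Set.toFinite _)).1 (by omega)
      linarith
  have h15 := beta_mono (κ := κ) hN0
  have h16 := beta_swap (κ := κ) hR2 hsR hyR
  have h17 : fden G Y = fden G Y0 + ((G.neighborSet y \ Y0).ncard : ℤ) - 2 := by
    conv_lhs => rw [hYn]
    exact fden_insert G (fun hh => hh.2 rfl)
  have h18 : (G.neighborSet y \ Y0).ncard ≤ ({w | w ∈ insert s R ∧ κ y + κ w = 1}).ncard := by
    apply Set.ncard_le_ncard _ (Set.toFinite _)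
    rintro w ⟨g1, g2⟩
    have g1' : G.Adj y w := g1
    refine ⟨?_, ?_⟩
    · rw [← hCR]
      refine ⟨?_, y, hy, g1'⟩
      intro hw
      exact g2 ⟨hw, fun hh => g1'.ne (Set.mem_singleton_iff.1 hh).symm⟩
    · rw [add_eq_one_iff]
      exact hd.bal y w hy g1'
  have h19 : ((G.neighborSet y \ Y0).ncard : ℤ) ≤
      (({w | w ∈ insert s R ∧ κ y + κ w = 1}).ncard : ℤ) := by exact_mod_cast h18
  rw [hCR] at hf0
  linarith

/-- A smallest dense set contains no vertex of degree two with both neighbours in the boundary. -/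
theorem EMin.no_link [Finite V] (hp : Pre2 G U) (hm : EMin G U Y κ) {m : V}
    (hmY : m ∈ Y) (hN : G.neighborSet m ⊆ Nb G Y) (h2 : (G.neighborSet m).ncard ≤ 2) : False := by
  classical
  have htwo := fun s hs => hm.two_nbrs hp (s := s) hs
  obtain ⟨hd, hmin⟩ := hm
  set Y0 : Set V := Y \ {m} with hY0
  have hYn : Y = insert m Y0 := by
    rw [hY0, Set.insert_sdiff_singleton, Set.insert_eq_of_mem hmY]
  have hc : Y0.ncard + 1 = Y.ncard := Set.ncard_sdiff_singleton_add_one hmY (Set.toFinite _)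
  have hY2 := hd.two
  have hNeq : Nb G Y0 = Nb G Y := by
    ext v
    constructor
    · rintro ⟨hv, x, hx, hxv⟩
      have hvm : v ≠ m := by
        rintro rfl
        exact (hN hxv.symm).1 hx.1
      exact ⟨fun hh => hv ⟨hh, hvm⟩, x, hx.1, hxv⟩
    · intro hv
      have h3 := htwo v hv
      obtain ⟨x, hx, hxm⟩ := exists_ne_of_two h3 m
      exact ⟨fun hh => hv.1 hh.1, x, ⟨hx.2, hxm⟩, SimpleGraph.Adj.symm hx.1⟩
  have hf : fden G Y ≤ fden G Y0 := by
    have h17 : fden G Y = fden G Y0 + ((G.neighborSet m \ Y0).ncard : ℤ) - 2 := by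
      conv_lhs => rw [hYn]
      exact fden_insert G (fun hh => hh.2 rfl)
    have h18 : (G.neighborSet m \ Y0).ncard ≤ 2 :=
      (Set.ncard_le_ncard Set.sdiff_subset (Set.toFinite _)).trans h2
    have h19 : ((G.neighborSet m \ Y0).ncard : ℤ) ≤ 2 := by exact_mod_cast h18
    linarith
  have hκ0 : PB G κ Y0 := hd.bal.mono Set.sdiff_subset
  by_cases h3 : 2 ≤ Y0.ncard
  · have h4 := hmin Y0 Set.sdiff_subset
      ⟨Set.sdiff_subset.trans hd.sub, h3, by rw [hNeq]; exact hd.three, ?_, hκ0, ?_⟩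
      (by rw [hNeq]; linarith)
    · rw [h4] at hc
      omega
    · rw [hNeq]
      obtain ⟨q, hqU, hq⟩ := hd.rest
      exact ⟨q, hqU, fun hh => hh.elim (fun h5 => hq (Or.inl h5.1)) (fun h5 => hq (Or.inr h5))⟩
    · rw [hNeq]
      exact lt_of_lt_of_le hd.dense hf
  · obtain ⟨z, hz⟩ := Set.ncard_eq_one.1 (by omega : Y0.ncard = 1)
    have h5 : fden G Y0 ≤ beta κ (Nb G Y0) := by
      rw [hz]
      apply PB.single
      · rw [← hz]; exact hκ0
      · have hzU : z ∈ U := hd.sub (hz ▸ rfl : z ∈ Y0).1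
        have := hp.deg2 z hzU
        exact (Set.ncard_pos (Set.toFinite _)).1 (by omega)
    have h6 := hd.dense
    rw [hNeq] at h5
    linarith

end

end Pool.Agent.Helper82.RP
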