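import Pool.Agent.Helper82.RP.Sparse
import Pool.Agent.Helper82.RP.Count

/-!
# The replacement step: the index of the star graph
-/

set_option autoImplicit false

namespace Pool.Agent.Helper82.RP

open SimpleGraph Pool.Agent.Helper57.TOK Pool.Agent.Helper57.TD Pool.Agent.Helper82.TK

variable {V : Type*}

section

variable {G : SimpleGraph V} {U M : Set V} {κ : V → ZMod 2} {u : V} {n m x hh : Fin 3 → V}
  {B : Finset (Fin 3)}

/-- Colouring lemma. -/
lemma RD.col [Finite V] (h : RD G U M κ n m x B) (κ1 : V → ZMod 2) (δ : ZMod 2) (Z : Set V)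
    (h1 : ∀ l ∈ B, n l ∈ Z ∨ x l ∈ Z)
    (h2 : ∀ j, j ∉ B → n j ∈ Z ∨ κ1 (n j) = κ (n j) + δ)
    (h3 : ∀ a b, a ∉ FB M n m B → b ∉ FB M n m B → a ∉ Z → b ∉ Z →
      G.Adj a b → κ1 a ≠ κ1 b) :
    ∃ f : V → ZMod 2, ∀ a b, a ∉ Z → b ∉ Z → G.Adj a b → f a ≠ f b := by
  classical
  -- the colouring
  let cm : Fin 3 → ZMod 2 := fun l => if n l ∈ Z then κ1 (x l) + 1 else κ (n l) + δ + 1
  let f : V → ZMod 2 := fun v => if v ∈ M ∨ ∃ l ∈ B, v = n l then κ v + δ else
    if hv : ∃ l ∈ B, v = m l then cm hv.choose else κ1 v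
  have fM : ∀ v ∈ M, f v = κ v + δ := fun v hv => if_pos (Or.inl hv)
  have fn : ∀ l ∈ B, f (n l) = κ (n l) + δ := fun l hl => if_pos (Or.inr ⟨l, hl, rfl⟩)
  have fm : ∀ l ∈ B, f (m l) = cm l := by
    intro l hl
    have e1 : ¬ (m l ∈ M ∨ ∃ l' ∈ B, m l = n l') := by
      rintro (h4 | ⟨l', hl', h4⟩)
      · exact (h.bad l hl).mM h4
      · exact h.m_ne_n hl l' h4
    have e2 : ∃ l' ∈ B, m l = m l' := ⟨l, hl, rfl⟩
    have e3 : f (m l) = cm e2.choose := by
      show (if _ then _ else _) = _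
      rw [if_neg e1, dif_pos e2]
    rw [e3, ← h.m_inj hl e2.choose_spec.1 e2.choose_spec.2]
  have fo : ∀ v, v ∉ FB M n m B → f v = κ1 v := by
    intro v hv
    have e1 : ¬ (v ∈ M ∨ ∃ l' ∈ B, v = n l') := by
      rintro (h4 | ⟨l', hl', h4⟩)
      · exact hv (Or.inl h4)
      · exact hv (Or.inr ⟨l', hl', Or.inl h4⟩)
    have e2 : ¬ ∃ l' ∈ B, v = m l' := by
      rintro ⟨l', hl', h4⟩
      exact hv (Or.inr ⟨l', hl', Or.inr h4⟩)
    show (if _ then _ else _) = _
    rw [if_neg e1, dif_neg e2]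
  have hadd : ∀ a : ZMod 2, a ≠ a + 1 := by decide
  have hcanc : ∀ a b δ : ZMod 2, a ≠ b → a + δ ≠ b + δ := by decide
  have hxF : ∀ l ∈ B, x l ∉ FB M n m B := by
    intro l hl
    have := h.t_notF l
    rwa [RD.t_bad hl] at this
  -- edges at M
  have kM : ∀ v w, v ∈ M → G.Adj v w → w ∉ Z → f v ≠ f w := by
    intro v w hv hvw hwZ
    rw [fM v hv]
    by_cases hw : w ∈ M
    · rw [fM w hw]
      exact hcanc _ _ _ (h.bm.bal v w hv hvw)
    · have hwN : w ∈ Nb G M := ⟨hw, v, hv, hvw⟩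
      obtain ⟨j, rfl⟩ := h.exists_n hwN
      by_cases hj : j ∈ B
      · rw [fn j hj]
        exact hcanc _ _ _ (h.bm.bal v _ hv hvw)
      · have hnF : n j ∉ FB M n m B := by
          have := h.t_notF j
          rwa [RD.t_good hj] at this
        rw [fo _ hnF]
        rcases h2 j hj with h4 | h4
        · exact absurd h4 hwZ
        · rw [h4]
          exact hcanc _ _ _ (h.bm.bal v _ hv hvw)
  -- edges at n
  have kn : ∀ l ∈ B, ∀ w, G.Adj (n l) w → n l ∉ Z → w ∉ Z → f (n l) ≠ f w := by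
    intro l hl w hw hnZ hwZ
    by_cases hwM : w ∈ M
    · exact (kM w _ hwM hw.symm hnZ).symm
    · rcases (h.bad l hl).out' hw hwM with h4 | h4
      · rw [h4, fn l hl, fm l hl]
        show _ ≠ (if n l ∈ Z then κ1 (x l) + 1 else κ (n l) + δ + 1)
        rw [if_neg hnZ]
        exact hadd _
      · exfalso
        rcases h1 l hl with h5 | h5
        · exact hnZ h5
        · exact hwZ (h4 ▸ h5)
  -- edges at m
  have km : ∀ l ∈ B, ∀ w, G.Adj (m l) w → w ∉ Z → m l ∉ Z → f (m l) ≠ f w := by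
    intro l hl w hw hwZ hmZ
    rcases (h.bad l hl).nbm' hw with h4 | h4
    · subst h4
      exact (kn l hl _ hw.symm hwZ hmZ).symm
    · subst h4
      have hnZ : n l ∈ Z := (h1 l hl).resolve_right hwZ
      rw [fm l hl, fo _ (hxF l hl)]
      show (if n l ∈ Z then κ1 (x l) + 1 else κ (n l) + δ + 1) ≠ _
      rw [if_pos hnZ]
      exact (hadd _).symm
  have kF : ∀ v w, v ∈ FB M n m B → v ∉ Z → w ∉ Z → G.Adj v w → f v ≠ f w := by
    rintro v w (hv | ⟨l, hl, hv | hv⟩) hvZ hwZ hvw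
    · exact kM v w hv hvw hwZ
    · subst hv; exact kn l hl w hvw hvZ hwZ
    · subst hv; exact km l hl w hvw hwZ hvZ
  refine ⟨f, ?_⟩
  intro v w hvZ hwZ hvw
  by_cases hv : v ∈ FB M n m B
  · exact kF v w hv hvZ hwZ hvw
  · by_cases hw : w ∈ FB M n m B
    · exact (kF w v hw hwZ hvZ hvw.symm).symm
    · rw [fo v hv, fo w hw]
      exact h3 v w hv hw hvZ hwZ hvw

lemma RD.no_col1 [Finite V] (h : RD G U M κ n m x B) (κ1 : V → ZMod 2) (δ : ZMod 2) (z : V)
    (h1 : ∀ l ∈ B, n l = z ∨ x l = z)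
    (h2 : ∀ j, j ∉ B → n j = z ∨ κ1 (n j) = κ (n j) + δ)
    (h3 : ∀ a b, a ∉ FB M n m B → b ∉ FB M n m B → a ≠ z → b ≠ z →
      G.Adj a b → κ1 a ≠ κ1 b) : False := by
  obtain ⟨f, hf⟩ := h.col κ1 δ {z} h1 h2 h3
  exact h.bm.idx z f (fun a b ha hb hab => hf a b ha hb hab)

/-- The deleted vertex is the centre and there is a bad boundary vertex: counting. -/
lemma RD.index_cnt [Finite V] (h : RD G U M κ n m x B) (hB : B.Nonempty) (κ1 : V → ZMod 2)
    (h3 : ∀ a b, a ∉ FB M n m B → b ∉ FB M n m B → G.Adj a b → κ1 a ≠ κ1 b) : False := by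
  classical
  set F := FB M n m B with hF
  set t := tB n x B with ht
  have hNF : Nb G F = Set.range t := h.nbF
  set R : Set V := U \ (F ∪ Nb G F) with hR
  have hRU : R ⊆ U := Set.sdiff_subset
  have hRF : ∀ y ∈ R, y ∉ F := fun y hy h1 => hy.2 (Or.inl h1)
  have hRN : ∀ y ∈ R, y ∉ Nb G F := fun y hy h1 => hy.2 (Or.inr h1)
  have hRout : ∀ y ∈ R, ∀ v, G.Adj y v → v ∉ F := by
    intro y hy v hyv hv
    exact hRN y hy ⟨hRF y hy, v, hv, hyv.symm⟩
  have hNR : Nb G R ⊆ Set.range t := by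
    rintro v ⟨hv, y, hy, hyv⟩
    rw [← hNF]
    by_contra hcon
    exact hv ⟨h.bm.pre.edge_mem v y hyv.symm, fun h1 => h1.elim (hRout y hy v hyv) hcon⟩
  have hrt : (Set.range t).ncard = 3 := by
    rw [← Set.image_univ, Set.ncard_image_of_injective _ h.t_inj, Set.ncard_univ]; simp
  have hNR3 : (Nb G R).ncard ≤ 3 := (Set.ncard_le_ncard hNR (Set.toFinite _)).trans hrt.le
  have hPB : PB G κ1 R := by
    intro y v hy hyv
    exact h3 y v (hRF y hy) (hRout y hy v hyv) hyv
  have hd1 : Disjoint R M := by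
    rw [Set.disjoint_left]
    exact fun y hy h1 => hRF y hy (Or.inl h1)
  have hd2 : Disjoint R (Nb G M) := by
    rw [Set.disjoint_left]
    intro y hy h1
    obtain ⟨i, rfl⟩ := h.exists_n h1
    by_cases hi : i ∈ B
    · exact hRF _ hy (Or.inr ⟨i, hi, Or.inl rfl⟩)
    · apply hRN _ hy
      rw [hNF]
      exact ⟨i, RD.t_good hi⟩
  have hdeg : ∀ v ∈ Nb G R, 3 ≤ (G.neighborSet v).ncard := by
    intro v hv
    obtain ⟨i, rfl⟩ := hNR hv
    have g1 : 2 ≤ (G.neighborSet (t i) \ F).ncard := (h.goodB i).1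
    have g2 : t i ∈ Nb G F := by rw [hNF]; exact ⟨i, rfl⟩
    obtain ⟨-, z, hz, hzt⟩ := g2
    have g3 : insert z (G.neighborSet (t i) \ F) ⊆ G.neighborSet (t i) := by
      rintro y (rfl | hy)
      · exact hzt.symm
      · exact hy.1
    have g4 := Set.ncard_le_ncard g3 (Set.toFinite _)
    rw [Set.ncard_insert_of_notMem (fun hh => hh.2 hz) (Set.toFinite _)] at g4
    omega
  have hcnt := h.bm.cnt R hRU hd1 hd2 ⟨κ1, hPB⟩ hNR3 hdeg
  -- vertices
  have hUc : U.ncard = F.ncard + 3 + R.ncard := by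
    have e1 := Set.ncard_sdiff_add_ncard_of_subset (s := F ∪ Nb G F) (t := U) (by
      rintro y (h1 | h1)
      · exact h.FU h1
      · exact h.bm.pre.Nb_sub F h1) (Set.toFinite _)
    have e2 : (F ∪ Nb G F).ncard = F.ncard + 3 := by
      rw [Set.ncard_union_eq _ (Set.toFinite _) (Set.toFinite _), hNF, hrt]
      rw [Set.disjoint_left]
      exact fun y hy h1 => h1.1 hy
    have e3 : (U \ (F ∪ Nb G F)).ncard = R.ncard := rfl
    omega
  -- edges inside the boundary
  have htt : ∃ k : Fin 3, ∀ i j, G.Adj (t i) (t j) → s(t i, t j) ≠ s(t (k + 1), t (k + 2)) := by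
    by_contra hcon
    push Not at hcon
    have key : ∀ g : Fin 3 → ZMod 2, ∃ k : Fin 3, g (k + 1) = g (k + 2) := by decide
    obtain ⟨k, hk⟩ := key (fun i => κ1 (t i))
    obtain ⟨i, j, hij, he⟩ := hcon k
    have hne := h3 (t i) (t j) (h.t_notF i) (h.t_notF j) hij
    rw [Sym2.eq_iff] at he
    rcases he with ⟨e1, e2⟩ | ⟨e1, e2⟩
    · rw [e1, e2] at hne; exact hne hk
    · rw [e1, e2] at hne; exact hne hk.symm
  obtain ⟨k, hk⟩ := htt
  have hpair : ∀ i j : Fin 3, i ≠ j → ∀ k : Fin 3, (s(i, j) = s(k + 1, k + 2)) ∨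
      (s(i, j) = s(k, k + 1)) ∨ (s(i, j) = s(k, k + 2)) := by decide
  have hE : G.edgeSet ⊆ (EAt G F ∪ EAt G R) ∪ {s(t k, t (k + 1)), s(t k, t (k + 2))} := by
    intro e he
    induction e using Sym2.ind with
    | _ a b =>
      have hab : G.Adj a b := he
      by_cases haF : a ∈ F
      · exact Or.inl (Or.inl ⟨he, a, haF, Sym2.mem_mk_left _ _⟩)
      by_cases hbF : b ∈ F
      · exact Or.inl (Or.inl ⟨he, b, hbF, Sym2.mem_mk_right _ _⟩)
      by_cases haR : a ∈ R
      · exact Or.inl (Or.inr ⟨he, a, haR, Sym2.mem_mk_left _ _⟩)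
      by_cases hbR : b ∈ R
      · exact Or.inl (Or.inr ⟨he, b, hbR, Sym2.mem_mk_right _ _⟩)
      right
      have cls : ∀ y ∈ U, y ∉ F → y ∉ R → ∃ i, y = t i := by
        intro y hy hyF hyR
        have : y ∈ Nb G F := by
          by_contra hcon
          exact hyR ⟨hy, fun h1 => h1.elim hyF hcon⟩
        rw [hNF] at this
        obtain ⟨i, hi⟩ := this
        exact ⟨i, hi.symm⟩
      obtain ⟨i, rfl⟩ := cls a (h.bm.pre.edge_mem _ _ hab) haF haR
      obtain ⟨j, rfl⟩ := cls b (h.bm.pre.edge_mem _ _ hab.symm) hbF hbR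
      have hij : i ≠ j := by
        rintro rfl
        exact hab.ne rfl
      have hmap : ∀ p q : Fin 3, s(i, j) = s(p, q) → s(t i, t j) = s(t p, t q) := by
        intro p q hpq
        have := congrArg (Sym2.map t) hpq
        simpa using this
      rcases hpair i j hij k with h5 | h5 | h5
      · exact absurd (hmap _ _ h5) (hk i j hab)
      · exact Or.inl (hmap _ _ h5)
      · exact Or.inr (hmap _ _ h5)
  have hEc : G.edgeSet.ncard ≤ rho G F + rho G R + 2 := by
    have h1 := Set.ncard_le_ncard hE (Set.toFinite _)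
    have h2 := Set.ncard_union_le (EAt G F ∪ EAt G R)
      ({s(t k, t (k + 1)), s(t k, t (k + 2))} : Set (Sym2 V))
    have h4 := Set.ncard_union_le (EAt G F) (EAt G R)
    have h5 := ncard_pair_le' s(t k, t (k + 1)) s(t k, t (k + 2))
    unfold rho
    omega
  have hfF := h.fden_F
  rw [← hF] at hfF
  have hBc : 1 ≤ B.card := Finset.card_pos.2 hB
  unfold fden at hcnt hfF
  omega

/-- The deleted vertex is the centre. -/
lemma RD.index_u [Finite V] (h : RD G U M κ n m x B) (κ1 : V → ZMod 2)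
    (h3 : ∀ a b, a ∉ FB M n m B → b ∉ FB M n m B → G.Adj a b → κ1 a ≠ κ1 b) : False := by
  classical
  by_cases hB : B.Nonempty
  · exact h.index_cnt hB κ1 h3
  · rw [Finset.not_nonempty_iff_eq_empty] at hB
    have hB' : ∀ l, l ∉ B := fun l => by rw [hB]; exact Finset.notMem_empty l
    obtain ⟨i, j, k, hall, hij⟩ : ∃ i j k : Fin 3, (∀ l, l = i ∨ l = j ∨ l = k) ∧
        κ1 (n i) + κ (n i) = κ1 (n j) + κ (n j) := by
      have key : ∀ g : Fin 3 → ZMod 2, ∃ i j k : Fin 3, (∀ l, l = i ∨ l = j ∨ l = k) ∧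
          g i = g j := by decide
      exact key (fun i => κ1 (n i) + κ (n i))
    refine h.no_col1 κ1 (κ1 (n i) + κ (n i)) (n k) (fun l hl => absurd hl (hB' l)) ?_ ?_
    · intro l _
      have this : ∀ a b : ZMod 2, a = b + (a + b) := by decide
      rcases hall l with h4 | h4 | h4
      · right
        rw [h4]
        exact this _ _
      · right
        rw [h4, hij]
        exact this _ _
      · exact Or.inl (by rw [h4])
    · intro a b ha hb _ _ hab
      exact h3 a b ha hb hab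

/-- The case `w ≠ u`. -/
lemma RD.index_ne [Finite V] (h : RD G U M κ n m x B)
    (hs : StarPos G U (FB M n m B) u (tB n x B) hh (OB κ n u B) (EB κ n u B))
    (κ1 : V → ZMod 2) {w : V} (hw : w ≠ u)
    (hκ : ∀ a b, a ≠ w → b ≠ w →
      (starL G (FB M n m B) u (tB n x B) hh (OB κ n u B) (EB κ n u B)).Adj a b → κ1 a ≠ κ1 b) :
    False := by
  classical
  -- untouched legs are consistent
  have cO : ∀ j ∈ OB κ n u B, w ≠ tB n x B j → κ1 u ≠ κ1 (tB n x B j) := by
    intro j hj h1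
    exact hκ _ _ hw.symm h1.symm ((hs.adj_u).2 (Or.inl ⟨j, hj, rfl⟩))
  have cE : ∀ j ∈ EB κ n u B, w ≠ tB n x B j → w ≠ hh j → κ1 (tB n x B j) = κ1 u := by
    intro j hj h1 h2
    have e1 := hκ _ _ hw.symm h2.symm ((hs.adj_u).2 (Or.inr ⟨j, hj, rfl⟩))
    have e2 := hκ _ _ h2.symm h1.symm ((hs.adj_h hj).2 (Or.inr rfl))
    revert e1 e2
    generalize κ1 u = a
    generalize κ1 (hh j) = b
    generalize κ1 (tB n x B j) = c
    revert a b c; decide
  have cB : ∀ l, w ≠ tB n x B l → (l ∈ EB κ n u B → w ≠ hh l) → l ∉ B := by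
    intro l h1 h2 hl
    have hlO : l ∈ OB κ n u B := mem_OB.2 (Or.inl hl)
    have hlE : l ∈ EB κ n u B := mem_EB.2 (Or.inl hl)
    exact cO l hlO h1 (cE l hlE h1 (h2 hlE)).symm
  have cc : ∀ l, w ≠ tB n x B l → (l ∈ EB κ n u B → w ≠ hh l) →
      κ1 (n l) = κ (n l) + (κ u + κ1 u) := by
    intro l h1 h2
    have hlB := cB l h1 h2
    have ht : tB n x B l = n l := RD.t_good hlB
    by_cases hc : κ (n l) = κ u
    · have h4 := cE l (mem_EB.2 (Or.inr hc)) h1 (h2 (mem_EB.2 (Or.inr hc)))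
      rw [ht] at h4
      rw [h4, hc]
      have : ∀ a b : ZMod 2, b = a + (a + b) := by decide
      exact this _ _
    · have h4 := cO l (mem_OB.2 (Or.inr hc)) h1
      rw [ht] at h4
      revert hc h4
      generalize κ (n l) = a
      generalize κ u = b
      generalize κ1 u = c
      generalize κ1 (n l) = d
      revert a b c d; decide
  by_cases hT : ∃ i, w = tB n x B i ∨ (i ∈ EB κ n u B ∧ w = hh i)
  · obtain ⟨i0, hi0⟩ := hT
    have hoth : ∀ j, j ≠ i0 → w ≠ tB n x B j ∧ (j ∈ EB κ n u B → w ≠ hh j) := by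
      intro j hji
      rcases hi0 with hi | ⟨hi, hi'⟩
      · refine ⟨fun h1 => hji (hs.tinj (h1.symm.trans hi)), fun hj h1 => ?_⟩
        exact hs.t_ne_h i0 hj (hi.symm.trans h1)
      · refine ⟨fun h1 => hs.t_ne_h j hi (h1.symm.trans hi'), fun hj h1 => ?_⟩
        exact hji (hs.hinj j hj i0 hi (h1.symm.trans hi'))
    have hB : ∀ l ∈ B, l = i0 := by
      intro l hl
      by_contra hne
      exact cB l (hoth l hne).1 (hoth l hne).2 hl
    have h2 : ∀ j, j ≠ i0 → κ1 (n j) = κ (n j) + (κ u + κ1 u) := fun j hj =>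
      cc j (hoth j hj).1 (hoth j hj).2
    by_cases hcase : w = tB n x B i0
    · -- delete `w`
      refine h.no_col1 κ1 (κ u + κ1 u) w ?_ ?_ ?_
      · intro l hl
        have := hB l hl
        subst this
        right
        rw [hcase, RD.t_bad hl]
      · intro j hj
        by_cases hji : j = i0
        · left
          rw [hji] at hj ⊢
          rw [hcase, RD.t_good hj]
        · exact Or.inr (h2 j hji)
      · intro a b ha hb haw hbw hab
        exact hκ a b haw hbw ((hs.adj_out ha hb).2 hab)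
    · have hi' := hi0.resolve_left hcase
      have hwF : w ∈ FB M n m B := by rw [hi'.2]; exact hs.hF i0 hi'.1
      refine h.no_col1 κ1 (κ u + κ1 u) (n i0) ?_ ?_ ?_
      · intro l hl
        exact Or.inl (by rw [hB l hl])
      · intro j hj
        by_cases hji : j = i0
        · exact Or.inl (by rw [hji])
        · exact Or.inr (h2 j hji)
      · intro a b ha hb _ _ hab
        exact hκ a b (fun h5 => ha (h5 ▸ hwF)) (fun h5 => hb (h5 ▸ hwF))
          ((hs.adj_out ha hb).2 hab)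
  · push Not at hT
    refine h.no_col1 κ1 (κ u + κ1 u) w ?_ ?_ ?_
    · intro l hl
      exact absurd hl (cB l (hT l).1 (hT l).2)
    · intro j _
      exact Or.inr (cc j (hT j).1 (hT j).2)
    · intro a b ha hb haw hbw hab
      exact hκ a b haw hbw ((hs.adj_out ha hb).2 hab)

/-- **Index of the star graph.** -/
theorem RD.index2 [Finite V] (h : RD G U M κ n m x B)
    (hs : StarPos G U (FB M n m B) u (tB n x B) hh (OB κ n u B) (EB κ n u B))
    (w : V) (κ1 : V → ZMod 2) :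
    ¬ ∀ a b, a ≠ w → b ≠ w →
      (starL G (FB M n m B) u (tB n x B) hh (OB κ n u B) (EB κ n u B)).Adj a b → κ1 a ≠ κ1 b := by
  intro hκ
  by_cases hw : w = u
  · subst hw
    refine h.index_u κ1 ?_
    intro a b ha hb hab
    exact hκ a b (fun h1 => ha (h1 ▸ hs.uF)) (fun h1 => hb (h1 ▸ hs.uF))
      ((hs.adj_out ha hb).2 hab)
  · exact h.index_ne hs κ1 hw hκ

end

end Pool.Agent.Helper82.RP
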