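import Pool.Agent.Helper82.RP.AllDef
import Pool.Agent.Helper82.TK.P2
import Pool.Agent.Helper82.TK.FanTri

/-!
# Balanced sets with three neighbours whose rest is small
-/

set_option autoImplicit false

namespace Pool.Agent.Helper82.RP

open SimpleGraph Pool.Agent.Helper57.TOK Pool.Agent.Helper57.TD Pool.Agent.Helper82.TK

variable {V : Type*}

section

variable {G : SimpleGraph V} {U M : Set V} {κ : V → ZMod 2} {u : V}

/-- Balanced sets with at least two vertices have at least three neighbours. -/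
lemma three_le_of_ind2 [Finite V] (hp : Pre2 G U) (hi : Ind2 G) {C : Set V} (hC : C ⊆ U)
    (hb : PB G κ C) (h2 : 2 ≤ C.ncard) : 3 ≤ (Nb G C).ncard := by
  classical
  by_contra hlt
  push Not at hlt
  have h1 := hp.conn C hC h2 (by omega)
  have hCne : C.Nonempty := (Set.ncard_pos (Set.toFinite _)).1 (by omega)
  obtain ⟨c0, hc0⟩ := hCne
  -- two names
  obtain ⟨a, b, hab⟩ : ∃ a b : V, ∀ y ∈ Nb G C, y = a ∨ y = b := by
    by_cases h0 : (Nb G C).ncard = 0
    · rw [Set.ncard_eq_zero (Set.toFinite _)] at h0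
      exact ⟨c0, c0, fun y hy => absurd (h0 ▸ hy) (Set.notMem_empty y)⟩
    · by_cases h1 : (Nb G C).ncard = 1
      · obtain ⟨a, ha⟩ := Set.ncard_eq_one.1 h1
        exact ⟨a, a, fun y hy => Or.inl (by rw [ha] at hy; exact hy)⟩
      · obtain ⟨a, b, -, ha⟩ := Set.ncard_eq_two.1 (by omega : (Nb G C).ncard = 2)
        refine ⟨a, b, fun y hy => ?_⟩
        rw [ha] at hy
        exact hy
  have hR : ∀ y z, y ∈ U → y ∉ C → y ∉ Nb G C → G.Adj y z → z = a ∨ z = b := by
    intro y z hy hyC hyN hyz
    have hzC : z ∉ C := fun hh => hyN ⟨hyC, z, hh, hyz.symm⟩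
    by_cases hzN : z ∈ Nb G C
    · exact hab z hzN
    · exfalso
      have hzU : z ∈ U := hp.edge_mem z y hyz.symm
      have h3 : ({y, z} : Set V) ⊆ U \ (C ∪ Nb G C) := by
        rintro v (rfl | hv)
        · exact ⟨hy, fun hh => hh.elim hyC hyN⟩
        · rw [Set.mem_singleton_iff] at hv
          rw [hv]; exact ⟨hzU, fun hh => hh.elim hzC hzN⟩
      have h4 := Set.ncard_le_ncard h3 (Set.toFinite _)
      rw [Set.ncard_pair hyz.ne] at h4
      omega
  refine hi a (fun v => if v ∈ C ∪ Nb G C then κ v else κ b + 1) ?_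
  have hadd : ∀ a : ZMod 2, a ≠ a + 1 := by decide
  have key : ∀ v w, v ≠ a → w ≠ a → G.Adj v w → v ∈ C ∪ Nb G C →
      (if v ∈ C ∪ Nb G C then κ v else κ b + 1) ≠ (if w ∈ C ∪ Nb G C then κ w else κ b + 1) := by
    intro v w hv hw hvw hvC
    rw [if_pos hvC]
    by_cases hwC : w ∈ C ∪ Nb G C
    · rw [if_pos hwC]
      rcases hvC with h3 | h3
      · exact hb v w h3 hvw
      · rcases hwC with h4 | h4
        · exact (hb w v h4 hvw.symm).symm
        · exfalso
          have e1 := (hab v h3).resolve_left hv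
          have e2 := (hab w h4).resolve_left hw
          exact hvw.ne (e1.trans e2.symm)
    · rw [if_neg hwC]
      rcases hR w v (hp.edge_mem w v hvw.symm) (fun hh => hwC (Or.inl hh))
        (fun hh => hwC (Or.inr hh)) hvw.symm with h3 | h3
      · exact absurd h3 hv
      · rw [h3]; exact hadd _
  intro v w hv hw hvw
  by_cases hvC : v ∈ C ∪ Nb G C
  · exact key v w hv hw hvw hvC
  · by_cases hwC : w ∈ C ∪ Nb G C
    · exact (key w v hw hv hvw.symm hwC).symm
    · exfalso
      have hvU : v ∈ U := hp.edge_mem v w hvw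
      rcases hR v w hvU (fun hh => hvC (Or.inl hh)) (fun hh => hvC (Or.inr hh)) hvw with h3 | h3
      · exact hw h3
      · -- `w = b`
        rcases hR w v (hp.edge_mem w v hvw.symm) (fun hh => hwC (Or.inl hh))
          (fun hh => hwC (Or.inr hh)) hvw.symm with h4 | h4
        · exact hv h4
        · exact hvw.ne (h4.trans h3.symm)

/-- Fans. -/
lemma exists_fanM [Finite V] (h3 : (Nb G M).ncard = 3)
    (hk : ∀ C ⊆ M, 2 ≤ C.ncard → 3 ≤ (Nb G C).ncard) (hu : u ∈ M)
    (hdeg : 3 ≤ (G.neighborSet u).ncard) :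
    ∃ (n : Fin 3 → V) (P : ∀ i, G.Walk u (n i)), FanM G M u n P := by
  classical
  have huN : u ∉ Nb G M := fun h => h.1 hu
  have hfan : Fan (restr G M) u (Nb G M) 3 := by
    apply fan_of_Nb huN
    intro Y huY hd hreach
    have hYM : Y ⊆ M := by
      intro y hy
      obtain ⟨p, hp⟩ := hreach y hy
      have key : ∀ (a b : V) (q : (restr G M).Walk a b), (∀ z ∈ q.support, z ∈ Y) → a ∈ M →
          b ∈ M := by
        intro a b q
        induction q with
        | nil => intro _ h; exact h
        | @cons a z b h q ih =>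
          intro hq ha
          apply ih (fun x hx => hq x (by rw [Walk.support_cons]; exact List.mem_cons_of_mem _ hx))
          by_contra hz
          have hzN : z ∈ Nb G M := ⟨hz, a, ha, h.1⟩
          have hzY : z ∈ Y := hq z (by
            rw [Walk.support_cons]; exact List.mem_cons_of_mem _ q.start_mem_support)
          exact (Set.disjoint_left.1 hd) hzY hzN
      exact key u y p hp hu
    rw [Nb_restr G hYM]
    by_cases h2 : 2 ≤ Y.ncard
    · exact hk Y hYM h2
    · have hY1 : Y.ncard = 1 := by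
        have : 0 < Y.ncard := (Set.ncard_pos (Set.toFinite _)).2 ⟨u, huY⟩
        omega
      obtain ⟨y, rfl⟩ := Set.ncard_eq_one.1 hY1
      rw [Set.mem_singleton_iff] at huY
      subst huY
      rw [Nb_singleton]
      exact hdeg
  obtain ⟨b, P, hP, hPB, hPd⟩ := hfan
  have hbinj : Function.Injective b := Fan.injective_end huN (fun i => (hP i).1) hPd
  have hrange : Set.range b = Nb G M := by
    apply Set.eq_of_subset_of_ncard_le _ _ (Set.toFinite _)
    · rintro _ ⟨i, rfl⟩; exact (hP i).1
    · rw [h3, ← Set.image_univ, Set.ncard_image_of_injective _ hbinj, Set.ncard_univ]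
      simp
  have hPW : ∀ i, ∀ x ∈ (P i).support, x = b i ∨ x ∈ M := by
    intro i x hx
    have key : ∀ (a c : V) (q : (restr G M).Walk a c), ∀ x ∈ q.support,
        a ∈ M ∪ Nb G M → x ∈ M ∪ Nb G M := by
      intro a c q
      induction q with
      | nil =>
        intro x hx ha
        simp only [Walk.support_nil, List.mem_cons, List.not_mem_nil, or_false] at hx
        exact hx ▸ ha
      | @cons a z c h q ih =>
        intro x hx ha
        rw [Walk.support_cons, List.mem_cons] at hx
        rcases hx with rfl | hx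
        · exact ha
        · apply ih x hx
          by_cases hz : z ∈ M
          · exact Or.inl hz
          · exact Or.inr ⟨hz, a, h.2.resolve_right hz, h.1⟩
    rcases key _ _ (P i) x hx (Or.inl hu) with h | h
    · exact Or.inr h
    · exact Or.inl (hPB i x hx h)
  refine ⟨b, fun i => (P i).mapLe (restr_le G M), hbinj, hrange,
    fun i => (Walk.isPath_mapLe _).2 (hP i).2, ?_, ?_⟩
  · intro i y hy
    rw [Walk.support_mapLe_eq_support] at hy
    exact hPW i y hy
  · intro i j hij y hy hy'
    rw [Walk.support_mapLe_eq_support] at hy hy'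
    exact hPd i j hij y hy hy'

/-- If all vertices of one colour have degree at most two then a balanced set with at most one
neighbour of that colour is not dense. -/
lemma fden_le_zero_col [Finite V] (hb : PB G κ M) (c : ZMod 2)
    (hN : {y | y ∈ Nb G M ∧ κ y ≠ c}.ncard ≤ 1)
    (hdeg : ∀ y ∈ M, κ y ≠ c → (G.neighborSet y).ncard ≤ 2) :
    fden G M ≤ - (({y | y ∈ M ∧ κ y = c}.ncard : ℕ) : ℤ) := by
  classical
  have hzz : ∀ a b c : ZMod 2, a = c → a ≠ b → b ≠ c := by decide
  have key : ∀ A : Set V, A ⊆ {y | y ∈ M ∧ κ y = c} →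
      fden G ({y | y ∈ M ∧ κ y ≠ c} ∪ A) ≤ - ((A.ncard : ℕ) : ℤ) := by
    intro A
    have hfin : A.Finite := Set.toFinite _
    induction A, hfin using Set.Finite.induction_on with
    | empty =>
      intro _
      rw [Set.union_empty, Set.ncard_empty]
      simpa using fden_le_zero_of_deg (fun y hy => hdeg y hy.1 hy.2)
    | @insert a A ha hA ih =>
      intro hsub
      have h1 := ih (fun x hx => hsub (Or.inr hx))
      have h2 := hsub (Or.inl rfl : a ∈ insert a A)
      have h3 : a ∉ {y | y ∈ M ∧ κ y ≠ c} ∪ A := fun hh => hh.elim (fun h4 => h4.2 h2.2) ha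
      have h4 : {y | y ∈ M ∧ κ y ≠ c} ∪ insert a A = insert a ({y | y ∈ M ∧ κ y ≠ c} ∪ A) := by
        rw [Set.union_insert]
      rw [h4, fden_insert G h3, Set.ncard_insert_of_notMem ha (Set.toFinite _)]
      have h5 : (G.neighborSet a \ ({y | y ∈ M ∧ κ y ≠ c} ∪ A)).ncard ≤ 1 := by
        refine (Set.ncard_le_ncard ?_ (Set.toFinite _)).trans hN
        rintro v ⟨hv, hv'⟩
        have hav : G.Adj a v := hv
        have hvc : κ v ≠ c := hzz _ _ _ h2.2 (hb a v h2.1 hav)
        have hvM : v ∉ M := fun hh => hv' (Or.inl ⟨hh, hvc⟩)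
        exact ⟨⟨hvM, a, h2.1, hav⟩, hvc⟩
      push_cast
      omega
  have h := key {y | y ∈ M ∧ κ y = c} subset_rfl
  have h1 : {y | y ∈ M ∧ κ y ≠ c} ∪ {y | y ∈ M ∧ κ y = c} = M := by
    ext y
    constructor
    · rintro (h2 | h2) <;> exact h2.1
    · intro hy
      by_cases h2 : κ y = c
      · exact Or.inr ⟨hy, h2⟩
      · exact Or.inl ⟨hy, h2⟩
  rwa [h1] at h

/-- Everything. -/
lemma fden_U [Finite V] (hp : Pre2 G U) :
    fden G U = (G.edgeSet.ncard : ℤ) - 2 * (U.ncard : ℤ) := by
  unfold fden rho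
  have : EAt G U = G.edgeSet := by
    ext e
    induction e using Sym2.ind with
    | _ x y =>
      rw [mem_EAt, SimpleGraph.mem_edgeSet]
      constructor
      · intro h; exact h.1
      · intro h; exact ⟨h, Or.inl (hp.edge_mem x y h)⟩
  rw [this]

/-- The count. -/
lemma small_count [Finite V] (hp : Pre2 G U) (hMU : M ⊆ U)
    (h3 : (Nb G M).ncard = 3) (hr : (U \ (M ∪ Nb G M)).ncard ≤ 1) :
    (G.edgeSet.ncard : ℤ) - 2 * (U.ncard : ℤ) + 2 ≤ fden G M := by
  classical
  obtain ⟨a, b, c, hab, hac, hbc, hN⟩ := Set.ncard_eq_three.1 h3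
  have ha : a ∈ Nb G M := by rw [hN]; simp
  have hb : b ∈ Nb G M := by rw [hN]; simp
  have hc : c ∈ Nb G M := by rw [hN]; simp
  set R := U \ (M ∪ Nb G M) with hR
  have hU : U = M ∪ Nb G M ∪ R := by
    rw [hR, Set.union_sdiff_cancel]
    exact Set.union_subset hMU (hp.Nb_sub M)
  have hUi : U = R ∪ insert c (insert b (insert a M)) := by
    rw [hU, hN]
    ext y
    simp only [Set.mem_union, Set.mem_insert_iff, Set.mem_singleton_iff]
    tauto
  have hmem : ∀ v y, G.Adj v y → y ∈ M ∨ y = a ∨ y = b ∨ y = c ∨ y ∈ R := by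
    intro v y hvy
    have h1 : y ∈ U := hp.edge_mem y v hvy.symm
    rw [hU, hN] at h1
    simp only [Set.mem_union, Set.mem_insert_iff, Set.mem_singleton_iff] at h1
    tauto
  have hRM : ∀ y ∈ R, y ∉ M := fun y hy hh => hy.2 (Or.inl hh)
  have hRN : ∀ y ∈ R, y ≠ a ∧ y ≠ b ∧ y ≠ c := fun y hy =>
    ⟨fun hh => hy.2 (Or.inr (hh ▸ ha)), fun hh => hy.2 (Or.inr (hh ▸ hb)),
      fun hh => hy.2 (Or.inr (hh ▸ hc))⟩
  have h1 : fden G (insert a M) ≤ fden G M + ((R.ncard : ℤ) + 2) - 2 := by
    rw [fden_insert G ha.1]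
    have : (G.neighborSet a \ M).ncard ≤ (R ∪ {b, c}).ncard := by
      apply Set.ncard_le_ncard _ (Set.toFinite _)
      rintro y ⟨hy, hyM⟩
      have hay : G.Adj a y := hy
      rcases hmem a y hay with h | h | h | h | h
      · exact absurd h hyM
      · exact absurd h hay.ne'
      · exact Or.inr (Or.inl h)
      · exact Or.inr (Or.inr h)
      · exact Or.inl h
    have h5 := Set.ncard_union_le R {b, c}
    rw [Set.ncard_pair hbc] at h5
    omega
  have hb' : b ∉ insert a M := fun hh => hh.elim (fun h => hab h.symm) hb.1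
  have h2 : fden G (insert b (insert a M)) ≤ fden G (insert a M) + ((R.ncard : ℤ) + 1) - 2 := by
    rw [fden_insert G hb']
    have : (G.neighborSet b \ insert a M).ncard ≤ (R ∪ {c}).ncard := by
      apply Set.ncard_le_ncard _ (Set.toFinite _)
      rintro y ⟨hy, hyM⟩
      have hay : G.Adj b y := hy
      rcases hmem b y hay with h | h | h | h | h
      · exact absurd (Or.inr h) hyM
      · exact absurd (Or.inl h) hyM
      · exact absurd h hay.ne'
      · exact Or.inr h
      · exact Or.inl h
    have h5 := Set.ncard_union_le R {c}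
    rw [Set.ncard_singleton] at h5
    omega
  have hc' : c ∉ insert b (insert a M) := by
    rintro (h | h | h)
    · exact hbc h.symm
    · exact hac h.symm
    · exact hc.1 h
  have h3 : fden G (insert c (insert b (insert a M))) ≤
      fden G (insert b (insert a M)) + (R.ncard : ℤ) - 2 := by
    rw [fden_insert G hc']
    have : (G.neighborSet c \ insert b (insert a M)).ncard ≤ R.ncard := by
      apply Set.ncard_le_ncard _ (Set.toFinite _)
      rintro y ⟨hy, hyM⟩
      have hay : G.Adj c y := hy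
      rcases hmem c y hay with h | h | h | h | h
      · exact absurd (Or.inr (Or.inr h)) hyM
      · exact absurd (Or.inr (Or.inl h)) hyM
      · exact absurd (Or.inl h) hyM
      · exact absurd h hay.ne'
      · exact h
    omega
  have h4 := fden_U hp
  by_cases hR0 : R.ncard = 0
  · have hRe : R = ∅ := (Set.ncard_eq_zero (Set.toFinite _)).1 hR0
    have h5 : fden G U = fden G (insert c (insert b (insert a M))) := by
      rw [hUi, hRe, Set.empty_union]
    rw [hR0] at h1 h2 h3
    push_cast at h1 h2 h3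
    linarith
  · obtain ⟨r, hr'⟩ := Set.ncard_eq_one.1 (by omega : R.ncard = 1)
    have hrR : r ∈ R := by rw [hr']; rfl
    have hrn := hRN r hrR
    have hrX : r ∉ insert c (insert b (insert a M)) := by
      rintro (h | h | h | h)
      · exact hrn.2.2 h
      · exact hrn.2.1 h
      · exact hrn.1 h
      · exact hRM r hrR h
    have h5 : fden G U = fden G (insert c (insert b (insert a M))) +
        ((G.neighborSet r \ insert c (insert b (insert a M))).ncard : ℤ) - 2 := by
      rw [← fden_insert G hrX, hUi, hr']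
      rfl
    have h6 : G.neighborSet r \ insert c (insert b (insert a M)) = ∅ := by
      rw [Set.eq_empty_iff_forall_notMem]
      rintro y ⟨hy, hyX⟩
      have hay : G.Adj r y := hy
      rcases hmem r y hay with h | h | h | h | h
      · exact hyX (Or.inr (Or.inr (Or.inr h)))
      · exact hyX (Or.inr (Or.inr (Or.inl h)))
      · exact hyX (Or.inr (Or.inl h))
      · exact hyX (Or.inl h)
      · rw [hr', Set.mem_singleton_iff] at h
        exact hay.ne' h
    rw [h6, Set.ncard_empty] at h5
    rw [hr', Set.ncard_singleton] at h1 h2 h3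
    push_cast at h1 h2 h3 h5
    linarith

/-- Index two gives the pairs. -/
lemma small_pair [Finite V] (hp : Pre2 G U) (hi : Ind2 G) (hb : PB G κ M)
    (hr : (U \ (M ∪ Nb G M)).ncard ≤ 1) {a b c : V} (hN : ∀ y ∈ Nb G M, y = a ∨ y = b ∨ y = c) :
    (G.Adj a b ∧ κ a = κ b) ∨
      ∃ r ∈ U \ (M ∪ Nb G M), G.Adj r a ∧ G.Adj r b ∧ κ a ≠ κ b := by
  classical
  by_contra hcon
  push Not at hcon
  obtain ⟨hc1, hc2⟩ := hcon
  have hRR : ∀ v w, v ∉ M ∪ Nb G M → w ∉ M ∪ Nb G M → ¬ G.Adj v w := by
    intro v w hv hw hvw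
    have h3 : ({v, w} : Set V) ⊆ U \ (M ∪ Nb G M) := by
      rintro x (rfl | hx)
      · exact ⟨hp.edge_mem _ _ hvw, hv⟩
      · rw [Set.mem_singleton_iff] at hx
        rw [hx]; exact ⟨hp.edge_mem _ _ hvw.symm, hw⟩
    have h4 := Set.ncard_le_ncard h3 (Set.toFinite _)
    rw [Set.ncard_pair hvw.ne] at h4
    omega
  have hadd : ∀ a : ZMod 2, a ≠ a + 1 := by decide
  have hadd2 : ∀ a b : ZMod 2, a = b → b ≠ a + 1 := by decide
  refine hi c (fun v => if v ∈ M ∪ Nb G M then κ v else if G.Adj v a then κ a + 1 else κ b + 1) ?_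
  have key : ∀ v w, v ≠ c → w ≠ c → G.Adj v w → v ∈ M ∪ Nb G M →
      (if v ∈ M ∪ Nb G M then κ v else if G.Adj v a then κ a + 1 else κ b + 1) ≠
      (if w ∈ M ∪ Nb G M then κ w else if G.Adj w a then κ a + 1 else κ b + 1) := by
    intro v w hv hw hvw hvC
    rw [if_pos hvC]
    by_cases hwC : w ∈ M ∪ Nb G M
    · rw [if_pos hwC]
      rcases hvC with h3 | h3
      · exact hb v w h3 hvw
      · rcases hwC with h4 | h4
        · exact (hb w v h4 hvw.symm).symm
        · rcases hN v h3 with e1 | e1 | e1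
          · rcases hN w h4 with e2 | e2 | e2
            · exact absurd (e1.trans e2.symm) hvw.ne
            · rw [e1, e2] at hvw ⊢; exact hc1 hvw
            · exact absurd e2 hw
          · rcases hN w h4 with e2 | e2 | e2
            · rw [e1, e2] at hvw ⊢; exact (hc1 hvw.symm).symm
            · exact absurd (e1.trans e2.symm) hvw.ne
            · exact absurd e2 hw
          · exact absurd e1 hv
    · rw [if_neg hwC]
      have hwU : w ∈ U := hp.edge_mem w v hvw.symm
      have hvM : v ∉ M := fun hh => hwC (Or.inr ⟨fun h => hwC (Or.inl h), v, hh, hvw⟩)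
      rcases hN v (hvC.resolve_left hvM) with e1 | e1 | e1
      · rw [e1] at hvw ⊢
        rw [if_pos hvw.symm]; exact hadd _
      · rw [e1] at hvw ⊢
        by_cases h4 : G.Adj w a
        · rw [if_pos h4]
          exact hadd2 _ _ (hc2 w ⟨hwU, hwC⟩ h4 hvw.symm)
        · rw [if_neg h4]; exact hadd _
      · exact absurd e1 hv
  intro v w hv hw hvw
  by_cases hvC : v ∈ M ∪ Nb G M
  · exact key v w hv hw hvw hvC
  · by_cases hwC : w ∈ M ∪ Nb G M
    · exact (key w v hw hv hvw.symm hwC).symm
    · exact absurd hvw (hRR v w hvC hwC)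

/-- **A balanced set with three neighbours and a small rest in a graph of index two with enough
edges gives a TOK4.** -/
theorem small_tok [Finite V] (hp : Pre2 G U) (hi : Ind2 G) (hMU : M ⊆ U) (hb : PB G κ M)
    (h3 : (Nb G M).ncard = 3) (hr : (U \ (M ∪ Nb G M)).ncard ≤ 1)
    (hreal : ∃ r ∈ M, 3 ≤ (G.neighborSet r).ncard)
    (hw : -2 ≤ (G.edgeSet.ncard : ℤ) - 2 * (U.ncard : ℤ)) :
    HasTOK4s G (fun _ => (1 : ZMod 2)) := by
  classical
  have hf : 0 ≤ fden G M := by
    have := small_count hp hMU h3 hr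
    omega
  obtain ⟨a, b, d, hab, had, hbd, hN⟩ := Set.ncard_eq_three.1 h3
  have haN : a ∈ Nb G M := by rw [hN]; simp
  have hbN : b ∈ Nb G M := by rw [hN]; simp
  have hdN : d ∈ Nb G M := by rw [hN]; simp
  have hNN : ∀ y ∈ Nb G M, y = a ∨ y = b ∨ y = d := by
    intro y hy
    rw [hN] at hy
    exact hy
  -- the majority colour
  obtain ⟨c, hc⟩ : ∃ c : ZMod 2, {y | y ∈ Nb G M ∧ κ y ≠ c}.ncard ≤ 1 := by
    have hz : ∀ p q r : ZMod 2, p = q ∨ p = r ∨ q = r := by decide
    rcases hz (κ a) (κ b) (κ d) with h | h | h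
    · refine ⟨κ a, ncard_le_one_of (a := d) ?_⟩
      rintro y ⟨hy, hyc⟩
      rcases hNN y hy with e | e | e
      · exact absurd (by rw [e]) hyc
      · exact absurd (by rw [e]; exact h.symm) hyc
      · exact e
    · refine ⟨κ a, ncard_le_one_of (a := b) ?_⟩
      rintro y ⟨hy, hyc⟩
      rcases hNN y hy with e | e | e
      · exact absurd (by rw [e]) hyc
      · exact e
      · exact absurd (by rw [e]; exact h.symm) hyc
    · refine ⟨κ b, ncard_le_one_of (a := a) ?_⟩
      rintro y ⟨hy, hyc⟩
      rcases hNN y hy with e | e | e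
      · exact e
      · exact absurd (by rw [e]) hyc
      · exact absurd (by rw [e]; exact h.symm) hyc
  -- the centre
  obtain ⟨u, hu, huc, hud⟩ : ∃ u ∈ M, κ u ≠ c ∧ 3 ≤ (G.neighborSet u).ncard := by
    by_contra hcon
    push Not at hcon
    have h5 := fden_le_zero_col hb c hc (fun y hy hyc => by
      have := hcon y hy hyc; omega)
    obtain ⟨r, hr1, hr2⟩ := hreal
    have h6 : κ r = c := by
      by_contra hrc
      have := hcon r hr1 hrc
      omega
    have h7 : 0 < {y | y ∈ M ∧ κ y = c}.ncard :=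
      (Set.ncard_pos (Set.toFinite _)).2 ⟨r, hr1, h6⟩
    omega
  have hk : ∀ C ⊆ M, 2 ≤ C.ncard → 3 ≤ (Nb G C).ncard := fun C hC h2 =>
    three_le_of_ind2 hp hi (hC.trans hMU) (hb.mono hC) h2
  obtain ⟨n, P, hF⟩ := exists_fanM h3 hk hu hud
  have hnN : ∀ i, n i ∈ Nb G M := fun i => hF.nrange ▸ Set.mem_range_self i
  have hnM : ∀ i, n i ∉ M := fun i => (hnN i).1
  have hun : ∀ i, u ≠ n i := fun i h => hnM i (h ▸ hu)
  have hpair : ∀ i j, i ≠ j → (G.Adj (n i) (n j) ∧ κ (n i) = κ (n j)) ∨
      ∃ r ∈ U \ (M ∪ Nb G M), G.Adj r (n i) ∧ G.Adj r (n j) ∧ κ (n i) ≠ κ (n j) := by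
    intro i j hij
    obtain ⟨k, hk'⟩ : ∃ k : Fin 3, ∀ l, l = i ∨ l = j ∨ l = k := by
      revert i j; decide
    refine small_pair hp hi hb hr (c := n k) ?_
    intro y hy
    rw [← hF.nrange] at hy
    obtain ⟨l, rfl⟩ := hy
    rcases hk' l with h | h | h
    · exact Or.inl (by rw [h])
    · exact Or.inr (Or.inl (by rw [h]))
    · exact Or.inr (Or.inr (by rw [h]))
  have hzz : ∀ p q r : ZMod 2, p ≠ r → q ≠ r → p = q := by decide
  have hz1 : ∀ p q r : ZMod 2, p ≠ r → q = r → p + q = 1 := by decide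
  by_cases hmono : ∀ i, κ (n i) = c
  · refine hasTOK4s_of_fan_triangle P hF.path (fun i => ?_) hF.ninj hun ?_ hF.disj ?_
    · rw [hF.wt_P hb i]
      exact hz1 _ _ _ huc (hmono i)
    · intro i j hij hmem
      rcases hF.supp i _ hmem with h | h
      · exact hij (hF.ninj h).symm
      · exact hnM j h
    · intro i j hij
      refine ⟨?_, rfl⟩
      rcases hpair i j hij with h | ⟨r, -, -, -, h⟩
      · exact h.1
      · exact absurd ((hmono i).trans (hmono j).symm) h
  · push Not at hmono
    obtain ⟨i0, hi0⟩ := hmono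
    have hoth : ∀ j, j ≠ i0 → κ (n j) = c := by
      intro j hj
      by_contra hjc
      have h1 : ({n j, n i0} : Set V) ⊆ {y | y ∈ Nb G M ∧ κ y ≠ c} := by
        rintro y (rfl | hy)
        · exact ⟨hnN j, hjc⟩
        · rw [Set.mem_singleton_iff] at hy; rw [hy]; exact ⟨hnN i0, hi0⟩
      have h2 := Set.ncard_le_ncard h1 (Set.toFinite _)
      rw [Set.ncard_pair (fun h => hj (hF.ninj h))] at h2
      omega
    -- the vertex `r`
    obtain ⟨r, hrR, hr0, hrj⟩ : ∃ r ∈ U \ (M ∪ Nb G M), G.Adj r (n i0) ∧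
        ∀ j, j ≠ i0 → G.Adj r (n j) := by
      have h1 : ∀ j, j ≠ i0 → ∃ r ∈ U \ (M ∪ Nb G M), G.Adj r (n i0) ∧ G.Adj r (n j) := by
        intro j hj
        rcases hpair i0 j hj.symm with h | ⟨r, hr1, hr2, hr3, -⟩
        · exact absurd (h.2.trans (hoth j hj)) hi0
        · exact ⟨r, hr1, hr2, hr3⟩
      obtain ⟨j0, hj0⟩ : ∃ j : Fin 3, j ≠ i0 := exists_ne i0
      obtain ⟨r, hr1, hr2, hr3⟩ := h1 j0 hj0
      refine ⟨r, hr1, hr2, fun j hj => ?_⟩
      obtain ⟨r', hr1', hr2', hr3'⟩ := h1 j hj
      have : r' = r := by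
        by_contra hne
        have h3 : ({r', r} : Set V) ⊆ U \ (M ∪ Nb G M) := by
          rintro x (rfl | hx)
          · exact hr1'
          · rw [Set.mem_singleton_iff] at hx
            rw [hx]; exact hr1
        have h4 := Set.ncard_le_ncard h3 (Set.toFinite _)
        rw [Set.ncard_pair hne] at h4
        omega
      rw [← this]; exact hr3'
    have hrM : r ∉ M := fun h => hrR.2 (Or.inl h)
    have hrN : ∀ i, r ≠ n i := fun i h => hrR.2 (Or.inr (h ▸ hnN i))
    have hrP : ∀ i, r ∉ (P i).support := by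
      intro i h
      rcases hF.supp i _ h with h | h
      · exact hrN i h
      · exact hrM h
    let b' : Fin 3 → V := fun i => if i = i0 then r else n i
    have hb0 : b' i0 = r := if_pos rfl
    have hbj : ∀ j, j ≠ i0 → b' j = n j := fun j hj => if_neg hj
    have hq : ∀ i, ∃ q : G.Walk u (b' i), q.IsPath ∧ wt (fun _ => (1 : ZMod 2)) q = 1 ∧
        ∀ y ∈ q.support, y ∈ (P i).support ∨ (i = i0 ∧ y = r) := by
      intro i
      by_cases h : i = i0
      · subst h
        refine ⟨((P i).concat hr0.symm).copy rfl hb0.symm, ?_, ?_, ?_⟩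
        · rw [Walk.isPath_copy]
          exact (hF.path i).concat (hrP i) hr0.symm
        · rw [wt_copy, Walk.concat_eq_append, wt_append, wt_cons, wt_nil, hF.wt_P hb i,
            hzz _ _ _ huc hi0]
          generalize κ (n i) = z
          revert z; decide
        · intro y hy
          rw [Walk.support_copy, Walk.support_concat,
            List.mem_append, List.mem_singleton] at hy
          rcases hy with hy | hy
          · exact Or.inl hy
          · exact Or.inr ⟨rfl, hy⟩
      · refine ⟨(P i).copy rfl (hbj i h).symm, ?_, ?_, ?_⟩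
        · rw [Walk.isPath_copy]
          exact hF.path i
        · rw [wt_copy, hF.wt_P hb i]
          exact hz1 _ _ _ huc (hoth i h)
        · intro y hy
          rw [Walk.support_copy] at hy
          exact Or.inl hy
    choose q hq1 hq2 hq3 using hq
    have hb'M : ∀ i, b' i ∉ M := by
      intro i
      by_cases h : i = i0
      · rw [h, hb0]; exact hrM
      · rw [hbj i h]; exact hnM i
    have hb'P : ∀ i j, i ≠ j → b' j ∉ (P i).support := by
      intro i j hij hmem
      by_cases h : j = i0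
      · rw [h, hb0] at hmem; exact hrP i hmem
      · rw [hbj j h] at hmem
        rcases hF.supp i _ hmem with h | h
        · exact hij (hF.ninj h).symm
        · exact hnM j h
    refine hasTOK4s_of_fan_triangle q hq1 hq2 ?_ (fun i h => hb'M i (h ▸ hu)) ?_ ?_ ?_
    · intro i j hij
      by_contra hne
      have h1 := hb'P i j hne
      have h2 := hb'P j i (Ne.symm hne)
      by_cases h : i = i0
      · have hj : j ≠ i0 := fun hh => hne (h.trans hh.symm)
        rw [h, hb0, hbj j hj] at hij
        exact hrN j hij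
      · rw [hbj i h] at hij
        rw [← hij] at h1
        exact h1 (P i).end_mem_support
    · intro i j hij hmem
      rcases hq3 i _ hmem with h | ⟨h, h'⟩
      · exact hb'P i j hij h
      · have hj : j ≠ i0 := fun hh => hij (h.trans hh.symm)
        rw [hbj j hj] at h'
        exact hrN j h'.symm
    · intro i j hij x hx hx'
      rcases hq3 i _ hx with h | ⟨h, h'⟩
      · rcases hq3 j _ hx' with h1 | ⟨h1, h1'⟩
        · exact hF.disj i j hij x h h1
        · rw [h1'] at h
          exact absurd h (hrP i)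
      · rcases hq3 j _ hx' with h1 | ⟨h1, h1'⟩
        · rw [h'] at h1
          exact absurd h1 (hrP j)
        · exact absurd (h.trans h1.symm) hij
    · have hsym : ∀ i j, i ≠ j → i ≠ i0 → G.Adj (b' i) (b' j) := by
        intro i j hij h
        rw [hbj i h]
        by_cases h' : j = i0
        · rw [h', hb0]; exact (hrj i h).symm
        · rw [hbj j h']
          rcases hpair i j hij with h2 | ⟨-, -, -, -, h2⟩
          · exact h2.1
          · exact absurd ((hoth i h).trans (hoth j h').symm) h2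
      intro i j hij
      refine ⟨?_, rfl⟩
      by_cases h : i = i0
      · exact (hsym j i hij.symm (fun hh => hij (h.trans hh.symm))).symm
      · exact hsym i j hij h

end

end Pool.Agent.Helper82.RP
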