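import Pool.Agent.Helper82.RP.Dens

/-!
# The replacement step
-/

set_option autoImplicit false

namespace Pool.Agent.Helper82.RP

open SimpleGraph Pool.Agent.Helper57.TOK Pool.Agent.Helper57.TD Pool.Agent.Helper82.TK

variable {V : Type*}

/-- Index at least two. -/
def Ind2 (G : SimpleGraph V) : Prop :=
  ∀ w, ∀ κ' : V → ZMod 2, ¬ ∀ a b, a ≠ w → b ≠ w → G.Adj a b → κ' a ≠ κ' b

/-- Sets away from `F` and its boundary: dense sets of the star graph are dense sets of `G`. -/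
lemma dense_of_away [Finite V] {G : SimpleGraph V} {U F : Set V} {u : V} {t h : Fin 3 → V}
    {O E : Finset (Fin 3)} (hs : StarPos G U F u t h O E) {Y : Set V} {κ1 : V → ZMod 2}
    (hYF : Disjoint Y F) (hYN : Disjoint Y (Nb G F)) :
    Dense3 (starL G F u t h O E) (starLU U F u h E) Y κ1 ↔
      (Dense3 G U Y κ1) := by
  obtain ⟨e1, e2, e3⟩ := hs.away_eq hYF hYN
  have hF' := Set.disjoint_left.1 hYF
  have hN' := Set.disjoint_left.1 hYN
  have huY : u ∉ Y ∪ Nb G Y := by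
    rintro (h1 | ⟨-, y, hy, hyu⟩)
    · exact hF' h1 hs.uF
    · exact hN' hy ⟨hF' hy, u, hs.uF, hyu.symm⟩
  constructor
  · intro hd
    refine ⟨fun y hy => hs.starLU_sub (hd.sub hy), hd.two, by rw [← e1]; exact hd.three,
      ⟨u, hs.FU hs.uF, huY⟩, fun a b ha hab => hd.bal a b ha ((e3 a b ha).2 hab), ?_⟩
    have := hd.dense
    rwa [e1, e2] at this
  · intro hd
    refine ⟨fun y hy => StarPos.out_mem (hd.sub hy) (hF' hy), hd.two, by rw [e1]; exact hd.three,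
      ⟨u, StarPos.u_mem, by rw [e1]; exact huY⟩,
      fun a b ha hab => hd.bal a b ha ((e3 a b ha).1 hab), ?_⟩
    rw [e1, e2]
    exact hd.dense

/-- The data of a replacement. -/
structure Star (G : SimpleGraph V) (U M : Set V) (κ : V → ZMod 2) (H : SimpleGraph V)
    (U' : Set V) (u : V) (n m x hh : Fin 3 → V) (B : Finset (Fin 3)) (P : ∀ i, G.Walk u (n i)) :
    Prop where
  rd : RD G U M κ n m x B
  uM : u ∈ M
  ud : 3 ≤ (G.neighborSet u).ncard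
  fan : FanM G M u n P
  hH : H = starL G (FB M n m B) u (tB n x B) hh (OB κ n u B) (EB κ n u B)
  hU' : U' = starLU U (FB M n m B) u hh (EB κ n u B)
  pos : StarPos G U (FB M n m B) u (tB n x B) hh (OB κ n u B) (EB κ n u B)
  hhB : ∀ i ∈ B, hh i = m i
  hhM : ∀ i ∈ EB κ n u B, i ∉ B → hh i ∈ M ∧ hh i ∈ (P i).support
  hhD : ∀ i ∈ EB κ n u B, hh i ∈ DB n m P B i

/-- Dense sets of the star graph contain excess-minimal dense sets of `G` away from `M`, with at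
least the same excess. -/
def Away (G : SimpleGraph V) (U M : Set V) (H : SimpleGraph V) (U' : Set V) : Prop :=
  ∀ X κ1, Dense3 H U' X κ1 → ∃ X0, X0 ⊆ X ∧ EMin G U X0 κ1 ∧ Disjoint X0 M ∧
    Disjoint X0 (Nb G M) ∧ Nb H X0 = Nb G X0 ∧ (∀ x ∈ X0, ∀ y, H.Adj x y ↔ G.Adj x y) ∧
    fden H X - beta κ1 (Nb H X) ≤ fden G X0 - beta κ1 (Nb G X0)

/-- **The replacement step.** -/
theorem rep_step' [Finite V] {G : SimpleGraph V} {U M : Set V} {κ : V → ZMod 2}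
    (h : RB G U M κ) {r1 r2 : V} (h1 : r1 ∈ M) (h2 : r2 ∈ M) (hne : r1 ≠ r2)
    (hd1 : 3 ≤ (G.neighborSet r1).ncard) (hd2 : 3 ≤ (G.neighborSet r2).ncard) :
    ∃ (H : SimpleGraph V) (U' : Set V) (u : V) (n m x hh : Fin 3 → V) (B : Finset (Fin 3))
      (P : ∀ i, G.Walk u (n i)), Star G U M κ H U' u n m x hh B P ∧
      Pre2 H U' ∧ Ind2 H ∧ U'.ncard < U.ncard ∧
      (G.edgeSet.ncard : ℤ) - 2 * (U.ncard : ℤ) - max 0 (fden G M - beta κ (Nb G M)) ≤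
        (H.edgeSet.ncard : ℤ) - 2 * (U'.ncard : ℤ) ∧
      (HasTOK4s H (fun _ => 1) → HasTOK4s G (fun _ => 1)) ∧
      Away G U M H U' := by
  classical
  obtain ⟨u, hu, hdeg, hf, hrule⟩ := exists_centre h.bal h.three ⟨r1, h1, hd1⟩
  have hr : ∃ r ∈ M, r ≠ u ∧ 3 ≤ (G.neighborSet r).ncard := by
    by_cases h4 : r1 = u
    · exact ⟨r2, h2, fun h5 => hne (h4.trans h5.symm), hd2⟩
    · exact ⟨r1, h1, h4, hd1⟩
  obtain ⟨n, P, hP⟩ := h.exists_fan hu hdeg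
  obtain ⟨m, x, B, hBD⟩ := h.exists_RD hP.ninj hP.nrange
  obtain ⟨hh, hs, hhB, hhM, hhD⟩ := hBD.exists_star hP hu
  refine ⟨_, _, u, n, m, x, hh, B, P, ⟨hBD, hu, hdeg, hP, rfl, rfl, hs, hhB, hhM, hhD⟩,
    hs.pre2' h.pre hBD.F_two hBD.goodB, fun w κ1 hκ1 => hBD.index2 hs w κ1 hκ1,
    hBD.card_lt hu hrule hr hP hs hhM, weight_star hs (hBD.fden_le hf),
    hs.lift (hBD.legs hP hu), ?_⟩
  intro X κ1 hX
  obtain ⟨Y, hYX, hY, hexc⟩ := exists_eMin hX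
  obtain ⟨d1, d2⟩ := hBD.away hu hs hhB (fun i hi hiB => (hhM i hi hiB).1) hY
  obtain ⟨e1, e2, e3⟩ := hs.away_eq d1 d2
  have hYG : EMin G U Y κ1 := by
    refine ⟨(dense_of_away hs d1 d2).1 hY.1, ?_⟩
    intro Y' hY' hd' he'
    have d1' := d1.mono_left hY'
    have d2' := d2.mono_left hY'
    obtain ⟨e1', e2', -⟩ := hs.away_eq d1' d2'
    refine hY.2 Y' hY' ((dense_of_away hs d1' d2').2 hd') ?_
    rw [e1, e2, e1', e2']
    exact he'
  refine ⟨Y, hYX, hYG, d1.mono_right Set.subset_union_left, ?_, e1,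
    fun x hx y => e3 x y hx, ?_⟩
  · rw [Set.disjoint_left]
    intro y hy hyN
    obtain ⟨i, rfl⟩ := hBD.exists_n hyN
    by_cases hi : i ∈ B
    · exact (Set.disjoint_left.1 d1) hy (Or.inr ⟨i, hi, Or.inl rfl⟩)
    · apply (Set.disjoint_left.1 d2) hy
      rw [hs.nb]
      exact ⟨i, RD.t_good hi⟩
  · rw [← e1, ← e2]
    exact hexc

/-- **The replacement step**, short form. -/
theorem rep_step [Finite V] {G : SimpleGraph V} {U M : Set V} {κ : V → ZMod 2}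
    (h : RB G U M κ) {r1 r2 : V} (h1 : r1 ∈ M) (h2 : r2 ∈ M) (hne : r1 ≠ r2)
    (hd1 : 3 ≤ (G.neighborSet r1).ncard) (hd2 : 3 ≤ (G.neighborSet r2).ncard) :
    ∃ (H : SimpleGraph V) (U' : Set V),
      Pre2 H U' ∧ Ind2 H ∧ U'.ncard < U.ncard ∧
      (G.edgeSet.ncard : ℤ) - 2 * (U.ncard : ℤ) - max 0 (fden G M - beta κ (Nb G M)) ≤
        (H.edgeSet.ncard : ℤ) - 2 * (U'.ncard : ℤ) ∧
      (HasTOK4s H (fun _ => 1) → HasTOK4s G (fun _ => 1)) ∧
      Away G U M H U' := by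
  obtain ⟨H, U', -, -, -, -, -, -, -, -, h3⟩ := rep_step' h h1 h2 hne hd1 hd2
  exact ⟨H, U', h3⟩

end Pool.Agent.Helper82.RP
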